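import Pool.Agent.T9h45.TD.Flow

set_option autoImplicit false
set_option linter.unusedSectionVars false

/-! # Tree-depth -/

namespace Pool.T9h45.TD

open Finset Pool.Agent.TH462.T4 Pool.Agent.TH676.T4 Pool.Agent.TH497.T4 Pool.Agent.N399.TB

variable {V E : Type} [Fintype V] [DecidableEq V] [Fintype E] [DecidableEq E]

/-- every connected set of vertices has exactly one vertex of smallest rank -/
def Rk (src dst : E → V) (ρ : V → ℕ) : Prop :=
  ∀ B, ConnSet src dst B → ∃ m ∈ B, ∀ x ∈ B, x ≠ m → ρ m < ρ x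

/-- there is a ranking with `k` ranks -/
def HasRk (k : ℕ) (src dst : E → V) : Prop := ∃ ρ : V → ℕ, (∀ v, ρ v < k) ∧ Rk src dst ρ

theorem ConnSet.of_lp {src dst : E → V} {e : E} {B : Finset V}
    (h : ConnSet src (Pool.Agent.TH462.T4.lp src dst {e}) B) : ConnSet src dst B := by
  refine ⟨h.1, fun A hA hA0 hA1 => ?_⟩
  obtain ⟨d, hd⟩ := h.2 A hA hA0 hA1
  exact ⟨d, hd.of_lp disjoint_sdiff⟩

/-- the preimage of a connected set -/
theorem ConnSet.of_ctr {src dst : E → V} {e : E} (hne : src e ≠ dst e) {B : Finset V}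
    (hv : dst e ∉ B)
    (h : ConnSet (ctr (src e) (dst e) ∘ src) (ctr (src e) (dst e) ∘ dst) B) :
    ConnSet src dst (univ.filter (fun x => ctr (src e) (dst e) x ∈ B)) := by
  set c := ctr (src e) (dst e) with hc
  have hcid : ∀ x, x ≠ dst e → c x = x := by
    intro x hx; rw [hc]; unfold ctr; rw [if_neg hx]
  have hcv : c (dst e) = src e := by rw [hc]; unfold ctr; rw [if_pos rfl]
  refine ⟨?_, ?_⟩
  · obtain ⟨x, hx⟩ := h.1
    refine ⟨x, ?_⟩
    have hxv : x ≠ dst e := fun h => hv (h ▸ hx)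
    simp [hcid x hxv, hx]
  · intro A hA hA0 hA1
    by_cases hsp : (src e ∈ A ∧ dst e ∉ A ∧ dst e ∈ univ.filter (fun x => c x ∈ B)) ∨
        (dst e ∈ A ∧ src e ∉ A ∧ src e ∈ univ.filter (fun x => c x ∈ B))
    · refine ⟨e, ?_⟩
      unfold JoinsSet
      rcases hsp with ⟨a1, a2, a3⟩ | ⟨a1, a2, a3⟩
      · exact Or.inl ⟨a1, mem_sdiff.mpr ⟨a3, a2⟩⟩
      · exact Or.inr ⟨mem_sdiff.mpr ⟨a3, a2⟩, a1⟩
    · have hcs : c (src e) = src e := hcid _ hne
      have hsat : ∀ x y, c x = c y → x ∈ A → y ∈ A := by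
        intro x y hxy hx
        by_cases h4 : x = dst e
        · by_cases h5 : y = dst e
          · rw [h5, ← h4]; exact hx
          · rw [h4, hcv, hcid y h5] at hxy
            subst hxy
            by_contra h6
            refine hsp (Or.inr ⟨h4 ▸ hx, h6, ?_⟩)
            have h7 := hA hx
            rw [mem_filter] at h7 ⊢
            refine ⟨mem_univ _, ?_⟩
            rw [hcs, ← hcv, ← h4]
            exact h7.2
        · by_cases h5 : y = dst e
          · rw [h5, hcv, hcid x h4] at hxy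
            subst hxy
            by_contra h6
            refine hsp (Or.inl ⟨hx, h5 ▸ h6, ?_⟩)
            have h7 := hA hx
            rw [mem_filter] at h7 ⊢
            refine ⟨mem_univ _, ?_⟩
            rw [hcv, ← hcs]
            exact h7.2
          · rw [hcid x h4, hcid y h5] at hxy
            exact hxy ▸ hx
      have hmem : ∀ x, c x ∈ A.image c ↔ x ∈ A := by
        intro x
        rw [mem_image]
        constructor
        · rintro ⟨y, hy, hyx⟩
          exact hsat y x hyx hy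
        · intro hx; exact ⟨x, hx, rfl⟩
      obtain ⟨d, hd⟩ := h.2 (A.image c) (by
        intro y hy
        obtain ⟨x, hx, rfl⟩ := mem_image.mp hy
        exact (mem_filter.mp (hA hx)).2) (hA0.image c) (by
        intro heq
        apply hA1
        refine subset_antisymm hA fun x hx => ?_
        rw [mem_filter] at hx
        rw [← hmem, heq]
        exact hx.2)
      refine ⟨d, ?_⟩
      unfold JoinsSet at hd ⊢
      simp only [Function.comp, mem_sdiff, hmem, mem_filter, mem_univ, true_and] at hd ⊢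
      exact hd

theorem mc_rk (k : ℕ) : MC (V := V) (E := E) (HasRk k) where
  del := by
    rintro src dst e ⟨ρ, h1, h2⟩ _
    exact ⟨ρ, h1, fun B hB => h2 B (ConnSet.of_lp hB)⟩
  con := by
    rintro src dst e ⟨ρ, h1, h2⟩ hne
    refine ⟨fun x => if x = src e then min (ρ (src e)) (ρ (dst e)) else ρ x, fun v => ?_,
      fun B hB => ?_⟩
    · change (if v = src e then min (ρ (src e)) (ρ (dst e)) else ρ v) < k
      by_cases hv : v = src e
      · rw [if_pos hv]
        exact lt_of_le_of_lt (min_le_left _ _) (h1 _)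
      · rw [if_neg hv]
        exact h1 v
    · change ∃ m ∈ B, ∀ x ∈ B, x ≠ m →
        (if m = src e then min (ρ (src e)) (ρ (dst e)) else ρ m) <
          if x = src e then min (ρ (src e)) (ρ (dst e)) else ρ x
      by_cases hv : dst e ∈ B
      · -- the vertex `dst e` is isolated
        have hBe : ({dst e} : Finset V) = B := by
          by_contra hne'
          obtain ⟨d, hd⟩ := hB.2 {dst e} (singleton_subset_iff.mpr hv) (singleton_nonempty _) hne'
          rcases hd with ⟨a, _⟩ | ⟨_, a⟩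
          · exact ctr_ne hne _ (mem_singleton.mp a)
          · exact ctr_ne hne _ (mem_singleton.mp a)
        refine ⟨dst e, hv, fun x hx hxe => ?_⟩
        rw [← hBe, mem_singleton] at hx
        exact absurd hx hxe
      · have hcid : ∀ x, x ≠ dst e → ctr (src e) (dst e) x = x := by
          intro x hx; unfold ctr; rw [if_neg hx]
        have hcv : ctr (src e) (dst e) (dst e) = src e := by unfold ctr; rw [if_pos rfl]
        obtain ⟨m, hm, hmin⟩ := h2 _ (ConnSet.of_ctr hne hv hB)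
        rw [mem_filter] at hm
        have hmin' : ∀ x, x ≠ dst e → x ∈ B → x ≠ m → ρ m < ρ x := by
          intro x hxe hx hxm
          exact hmin x (mem_filter.2 ⟨mem_univ _, by rw [hcid x hxe]; exact hx⟩) hxm
        have hne2 : ∀ x ∈ B, x ≠ dst e := fun x hx h' => hv (h' ▸ hx)
        by_cases hms : m = src e ∨ m = dst e
        · have hsB : src e ∈ B := by
            rcases hms with hms | hms
            · rw [hms, hcid _ hne] at hm; exact hm.2
            · rw [hms, hcv] at hm; exact hm.2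
          refine ⟨src e, hsB, fun x hx hxs => ?_⟩
          rw [if_pos rfl, if_neg hxs]
          have hxm : x ≠ m := by
            rcases hms with hms | hms
            · rw [hms]; exact hxs
            · rw [hms]; exact hne2 x hx
          have h3 := hmin' x (hne2 x hx) hx hxm
          rcases hms with hms | hms
          · rw [hms] at h3
            exact lt_of_le_of_lt (min_le_left _ _) h3
          · rw [hms] at h3
            exact lt_of_le_of_lt (min_le_right _ _) h3
        · rw [not_or] at hms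
          have hmB : m ∈ B := by
            rw [hcid m hms.2] at hm; exact hm.2
          refine ⟨m, hmB, fun x hx hxm => ?_⟩
          rw [if_neg hms.1]
          by_cases hxs : x = src e
          · rw [if_pos hxs]
            have hsB : src e ∈ B := hxs ▸ hx
            have h3 := hmin' (src e) hne hsB (Ne.symm hms.1)
            have h4 := hmin (dst e) (mem_filter.2 ⟨mem_univ _, by rw [hcv]; exact hsB⟩)
              (Ne.symm hms.2)
            exact lt_min h3 h4
          · rw [if_neg hxs]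
            exact hmin' x (hne2 x hx) hx hxm

/-! ## the chain -/

/-- closed in terms of neighbours -/
theorem closed_of {src dst : E → V} {Z I : Finset V} (h : ∀ v ∈ I, ∀ w ∈ nbr src dst v, w ∈ I ∪ Z) :
    Closed src dst Z I := by
  intro e he
  by_cases hl : src e = dst e
  · rw [← hl] at he ⊢
    have : src e ∈ I := by tauto
    exact ⟨mem_union_left _ this, mem_union_left _ this⟩
  · rcases he with he | he
    · exact ⟨mem_union_left _ he, h _ he _ (mem_nbr.2 ⟨Ne.symm hl, e, Or.inl ⟨rfl, rfl⟩⟩)⟩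
    · exact ⟨h _ he _ (mem_nbr.2 ⟨hl, e, Or.inr ⟨rfl, rfl⟩⟩), mem_union_left _ he⟩

theorem small_side {src dst : E → V} (hM : MinCx src dst) {N Z I : Finset V}
    (hN : ∀ v, v ∈ N ↔ Nis src dst v) (hZ : Z.card ≤ 4) (hI : I ⊆ N) (hd : Disjoint I Z)
    (hc : ∀ v ∈ I, ∀ w ∈ nbr src dst v, w ∈ I ∪ Z) (h3 : 3 ≤ I.card) :
    (N \ (I ∪ Z)).card ≤ 2 := by
  by_contra hlt
  obtain ⟨x1, m1, x2, m2, x3, m3, n12, n13, n23⟩ := two_lt_card.1 (show 2 < I.card by omega)
  obtain ⟨y1, k1, y2, k2, y3, k3, l12, l13, l23⟩ :=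
    two_lt_card.1 (show 2 < (N \ (I ∪ Z)).card by omega)
  have hO : ∀ y ∈ N \ (I ∪ Z), y ∉ I ∧ y ∉ Z ∧ Nis src dst y := by
    intro y hy
    rw [mem_sdiff, mem_union, not_or, hN] at hy
    tauto
  exact sep4 hM (closed_of hc) hd hZ m1 m2 m3 n12 n13 n23 ((hN _).1 (hI m1)) ((hN _).1 (hI m2))
    ((hN _).1 (hI m3)) (hO _ k1).1 (hO _ k1).2.1 (hO _ k2).1 (hO _ k2).2.1 (hO _ k3).1 (hO _ k3).2.1
    l12 l13 l23 (hO _ k1).2.2 (hO _ k2).2.2 (hO _ k3).2.2

/-- the large component -/
structure Big (src dst : E → V) (N Z K : Finset V) : Prop where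
  sub : K ⊆ N
  disj : Disjoint K Z
  conn : ConnSet src dst K
  closed : ∀ v ∈ K, ∀ w ∈ nbr src dst v, w ∈ K ∪ Z
  rest : (N \ (K ∪ Z)).card ≤ 2

theorem exists_big {src dst : E → V} (hM : MinCx src dst) {N Z : Finset V}
    (hN : ∀ v, v ∈ N ↔ Nis src dst v) (h18 : 18 ≤ N.card) (hZ : Z.card ≤ 4) :
    ∃ K, Big src dst N Z K := by
  classical
  obtain ⟨F, hF⟩ : ∃ F : Finset (Finset V), F = (N \ Z).powerset.filter (fun I =>
      (∀ v ∈ I, ∀ w ∈ nbr src dst v, w ∈ I ∪ Z) ∧ 3 ≤ I.card) := ⟨_, rfl⟩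
  have mF : ∀ I, I ∈ F ↔ I ⊆ N \ Z ∧ (∀ v ∈ I, ∀ w ∈ nbr src dst v, w ∈ I ∪ Z) ∧ 3 ≤ I.card := by
    intro I; rw [hF, mem_filter, mem_powerset]
  have hNZ : N.card ≤ (N \ Z).card + Z.card := by
    have := card_le_card (show N ⊆ (N \ Z) ∪ Z by
      intro v hv; rw [mem_union, mem_sdiff]; tauto)
    exact this.trans (card_union_le _ _)
  have hne : F.Nonempty := by
    refine ⟨N \ Z, (mF _).2 ⟨Subset.rfl, fun v hv w hw => ?_, by omega⟩⟩
    have hwN := (hN w).2 (nbr_nis hw)
    rw [mem_union, mem_sdiff]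
    tauto
  obtain ⟨K, hK, hmin⟩ := exists_min_image F card hne
  obtain ⟨k1, k2, k3⟩ := (mF K).1 hK
  have hsub : K ⊆ N := k1.trans sdiff_subset
  have hdis : Disjoint K Z := disjoint_of_subset_left k1 sdiff_disjoint
  have hrest := small_side hM hN hZ hsub hdis k2 k3
  have hbig : 12 ≤ K.card := by
    have h1 := card_le_card (show N ⊆ (N \ (K ∪ Z)) ∪ (K ∪ Z) by
      intro v hv; rw [mem_union, mem_sdiff]; tauto)
    have h2 := card_union_le (N \ (K ∪ Z)) (K ∪ Z)
    have h3 := card_union_le K Z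
    omega
  refine ⟨K, hsub, hdis, ⟨card_pos.1 (by omega), fun A hA hA0 hA1 => ?_⟩, k2, hrest⟩
  by_contra hno
  have hno' : ∀ v ∈ A, ∀ w ∈ nbr src dst v, w ∉ K \ A := by
    intro v hv w hw hwK
    rw [mem_nbr] at hw
    obtain ⟨_, e, he⟩ := hw
    apply hno
    refine ⟨e, ?_⟩
    unfold JoinsSet
    rcases he with ⟨e1, e2⟩ | ⟨e1, e2⟩
    · left; rw [e1, e2]; exact ⟨hv, hwK⟩
    · right; rw [e1, e2]; exact ⟨hwK, hv⟩
  have c1 : A.card ≤ 2 := by
    by_contra hlt
    have hAF : A ∈ F := by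
      rw [mF]
      refine ⟨hA.trans k1, fun v hv w hw => ?_, by omega⟩
      have h1 := k2 v (hA hv) w hw
      have h2 := hno' v hv w hw
      rw [mem_sdiff] at h2
      rw [mem_union] at h1 ⊢
      tauto
    have h1 := hmin A hAF
    exact hA1 (eq_of_subset_of_card_le hA h1)
  have c2 : (K \ A).card ≤ 2 := by
    by_contra hlt
    have hAF : K \ A ∈ F := by
      rw [mF]
      refine ⟨sdiff_subset.trans k1, fun v hv w hw => ?_, by omega⟩
      have h1 := k2 v (mem_sdiff.1 hv).1 w hw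
      have h2 : w ∉ A := fun hwA => hno' w hwA v (nbr_symm hw) hv
      rw [mem_union] at h1 ⊢
      rw [mem_sdiff]
      tauto
    have h1 := hmin _ hAF
    have h2 : K \ A = K := eq_of_subset_of_card_le sdiff_subset h1
    obtain ⟨a, ha⟩ := hA0
    have h3 := hA ha
    rw [← h2, mem_sdiff] at h3
    exact h3.2 ha
  have c3 : K.card ≤ A.card + (K \ A).card := by
    have h1 := card_le_card (show K ⊆ A ∪ (K \ A) by
      intro v hv; rw [mem_union, mem_sdiff]; tauto)
    exact h1.trans (card_union_le _ _)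
  omega

theorem Big.card {src dst : E → V} {N Z K : Finset V} (h : Big src dst N Z K)
    (h18 : 18 ≤ N.card) (hZ : Z.card ≤ 4) : 12 ≤ K.card := by
  have h1 := card_le_card (show N ⊆ (N \ (K ∪ Z)) ∪ (K ∪ Z) by
    intro v hv; rw [mem_union, mem_sdiff]; tauto)
  have h2 := card_union_le (N \ (K ∪ Z)) (K ∪ Z)
  have h3 := card_union_le K Z
  have h4 := h.rest
  omega

/-- large components are nested -/
theorem Big.sub_of {src dst : E → V} {N Z Z' K K' : Finset V} (h : Big src dst N Z K)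
    (h' : Big src dst N Z' K') (hZ : Z ⊆ Z') (h18 : 18 ≤ N.card) (hZ' : Z'.card ≤ 4) :
    K' ⊆ K := by
  classical
  have hne : (K' ∩ K).Nonempty := by
    rw [nonempty_iff_ne_empty]
    intro h0
    have h1 : K' ⊆ N \ (K ∪ Z) := by
      intro v hv
      rw [mem_sdiff, mem_union, not_or]
      refine ⟨h'.sub hv, fun hvK => ?_, fun hvZ => disjoint_left.1 h'.disj hv (hZ hvZ)⟩
      have : v ∈ K' ∩ K := mem_inter.2 ⟨hv, hvK⟩
      rw [h0] at this
      exact notMem_empty _ this
    have h2 := card_le_card h1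
    have h3 := h'.card h18 hZ'
    have h4 := h.rest
    omega
  by_contra hno
  have hneq : K' ∩ K ≠ K' := fun h1 => hno (inter_eq_left.1 h1)
  obtain ⟨e, he⟩ := h'.conn.2 (K' ∩ K) inter_subset_left hne hneq
  have key : ∀ v w, v ∈ K' ∩ K → w ∈ K' \ (K' ∩ K) → w ∈ nbr src dst v → False := by
    intro v w hv hw hvw
    have h1 := h.closed v (mem_inter.1 hv).2 w hvw
    rw [mem_sdiff, mem_inter] at hw
    rcases mem_union.1 h1 with h2 | h2
    · exact hw.2 ⟨hw.1, h2⟩
    · exact disjoint_left.1 h'.disj hw.1 (hZ h2)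
  rcases he with ⟨h1, h2⟩ | ⟨h1, h2⟩
  · refine key _ _ h1 h2 (mem_nbr.2 ⟨fun h3 => ?_, e, Or.inl ⟨rfl, rfl⟩⟩)
    rw [h3] at h2
    exact (mem_sdiff.1 h2).2 h1
  · refine key _ _ h2 h1 (mem_nbr.2 ⟨fun h3 => ?_, e, Or.inr ⟨rfl, rfl⟩⟩)
    rw [h3] at h1
    exact (mem_sdiff.1 h1).2 h2

theorem chain {src dst : E → V} (hM : MinCx src dst) {N : Finset V}
    (hN : ∀ v, v ∈ N ↔ Nis src dst v) (h18 : 18 ≤ N.card) {ρ : V → ℕ} (hρ : Rk src dst ρ) :
    ∀ i, i ≤ 4 → ∃ Z K, Z.card ≤ i ∧ Big src dst N Z K ∧ ∀ x ∈ K, i ≤ ρ x := by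
  intro i
  induction i with
  | zero =>
    intro _
    obtain ⟨K, hK⟩ := exists_big hM hN h18 (Z := ∅) (by rw [card_empty]; omega)
    exact ⟨∅, K, by rw [card_empty], hK, fun x _ => Nat.zero_le _⟩
  | succ i ih =>
    intro hi
    obtain ⟨Z, K, hZ, hK, hr⟩ := ih (by omega)
    obtain ⟨m, hm, hmin⟩ := hρ K hK.conn
    have hZ' : (insert m Z).card ≤ i + 1 := (card_insert_le _ _).trans (by omega)
    obtain ⟨K', hK'⟩ := exists_big hM hN h18 (Z := insert m Z) (by omega)
    refine ⟨insert m Z, K', hZ', hK', fun x hx => ?_⟩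
    have h1 := hK.sub_of hK' (subset_insert _ _) h18 (by omega) hx
    have h2 : x ≠ m := by
      rintro rfl
      exact disjoint_left.1 hK'.disj hx (mem_insert_self _ _)
    have h3 := hmin x h1 h2
    have h4 := hr m hm
    omega

/-- connected sets with two or three vertices -/
theorem conn2 {src dst : E → V} {x y : V} (hy : y ∈ nbr src dst x) : ConnSet src dst {x, y} := by
  refine ⟨⟨x, by simp⟩, fun A hA hA0 hA1 => ?_⟩
  obtain ⟨hne, e, he⟩ := mem_nbr.1 hy
  have key : (x ∈ A ∧ y ∉ A) ∨ (y ∈ A ∧ x ∉ A) := by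
    by_cases h1 : x ∈ A <;> by_cases h2 : y ∈ A
    · exfalso
      apply hA1
      apply subset_antisymm hA
      intro w hw
      rw [mem_insert, mem_singleton] at hw
      rcases hw with rfl | rfl
      · exact h1
      · exact h2
    · exact Or.inl ⟨h1, h2⟩
    · exact Or.inr ⟨h2, h1⟩
    · exfalso
      obtain ⟨w, hw⟩ := hA0
      have := hA hw
      rw [mem_insert, mem_singleton] at this
      rcases this with rfl | rfl
      · exact h1 hw
      · exact h2 hw
  refine ⟨e, ?_⟩
  unfold JoinsSet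
  rcases key with ⟨h1, h2⟩ | ⟨h1, h2⟩
  · have h3 : y ∈ ({x, y} : Finset V) \ A := mem_sdiff.2 ⟨by simp, h2⟩
    rcases he with ⟨e1, e2⟩ | ⟨e1, e2⟩
    · left; rw [e1, e2]; exact ⟨h1, h3⟩
    · right; rw [e1, e2]; exact ⟨h3, h1⟩
  · have h3 : x ∈ ({x, y} : Finset V) \ A := mem_sdiff.2 ⟨by simp, h2⟩
    rcases he with ⟨e1, e2⟩ | ⟨e1, e2⟩
    · right; rw [e1, e2]; exact ⟨h3, h1⟩
    · left; rw [e1, e2]; exact ⟨h1, h3⟩

theorem conn_insert {src dst : E → V} {B : Finset V} {x y : V} (hB : ConnSet src dst B)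
    (hy : y ∈ B) (hx : x ∈ nbr src dst y) (hxB : x ∉ B) : ConnSet src dst (insert x B) := by
  refine ⟨⟨x, by simp⟩, fun A hA hA0 hA1 => ?_⟩
  obtain ⟨hne, e, he⟩ := mem_nbr.1 hx
  -- the trace on `B`
  by_cases h1 : (A ∩ B) = B
  · have hBA : B ⊆ A := inter_eq_right.1 h1
    have hxA : x ∉ A := fun h2 => hA1 (subset_antisymm hA (insert_subset h2 hBA))
    have h3 : x ∈ insert x B \ A := mem_sdiff.2 ⟨mem_insert_self _ _, hxA⟩
    refine ⟨e, ?_⟩
    unfold JoinsSet
    rcases he with ⟨e1, e2⟩ | ⟨e1, e2⟩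
    · left; rw [e1, e2]; exact ⟨hBA hy, h3⟩
    · right; rw [e1, e2]; exact ⟨h3, hBA hy⟩
  · by_cases h2 : (A ∩ B).Nonempty
    · obtain ⟨d, hd⟩ := hB.2 (A ∩ B) inter_subset_right h2 h1
      refine ⟨d, ?_⟩
      have h3 : ∀ w, w ∈ B \ (A ∩ B) → w ∈ insert x B \ A := by
        intro w hw
        rw [mem_sdiff, mem_inter] at hw
        rw [mem_sdiff, mem_insert]
        tauto
      unfold JoinsSet at hd ⊢
      rcases hd with ⟨e1, e2⟩ | ⟨e1, e2⟩
      · exact Or.inl ⟨(mem_inter.1 e1).1, h3 _ e2⟩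
      · exact Or.inr ⟨h3 _ e1, (mem_inter.1 e2).1⟩
    · rw [not_nonempty_iff_eq_empty] at h2
      have hyA : y ∉ A := by
        intro h3
        have : y ∈ A ∩ B := mem_inter.2 ⟨h3, hy⟩
        rw [h2] at this
        exact notMem_empty _ this
      have hxA : x ∈ A := by
        obtain ⟨w, hw⟩ := hA0
        rcases mem_insert.1 (hA hw) with rfl | h3
        · exact hw
        · have : w ∈ A ∩ B := mem_inter.2 ⟨hw, h3⟩
          rw [h2] at this
          exact absurd this (notMem_empty _)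
      have h3 : y ∈ insert x B \ A := mem_sdiff.2 ⟨mem_insert_of_mem hy, hyA⟩
      refine ⟨e, ?_⟩
      unfold JoinsSet
      rcases he with ⟨e1, e2⟩ | ⟨e1, e2⟩
      · right; rw [e1, e2]; exact ⟨h3, hxA⟩
      · left; rw [e1, e2]; exact ⟨hxA, h3⟩

open Classical in
/-- **No minimal counterexample of tree-depth seven.** -/
theorem td_false {src dst : E → V} (hM : MinCx src dst) (hP : ¬ PetMinor src dst)
    (hT : HasRk 7 src dst) : False := by
  obtain ⟨ρ, hρ7, hρ⟩ := hT
  obtain ⟨N, hNd⟩ : ∃ N : Finset V, N = univ.filter (fun v => Nis src dst v) := ⟨_, rfl⟩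
  have hN : ∀ v, v ∈ N ↔ Nis src dst v := by
    intro v; rw [hNd, mem_filter]; simp
  have h18 : 18 ≤ N.card := by rw [hNd]; exact many hM hP
  obtain ⟨Z, K, hZ, hK, hr⟩ := chain hM hN h18 hρ 4 le_rfl
  obtain ⟨m, hm, hmin⟩ := hρ K hK.conn
  have h5 : ∀ x ∈ K, x ≠ m → 5 ≤ ρ x := by
    intro x hx hxm
    have := hmin x hx hxm
    have := hr m hm
    omega
  -- two neighbours have different ranks
  have hadj : ∀ x y, y ∈ nbr src dst x → ρ x ≠ ρ y := by
    intro x y hy
    obtain ⟨w, hw, hmn⟩ := hρ _ (conn2 hy)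
    have hne := (mem_nbr.1 hy).1
    rw [mem_insert, mem_singleton] at hw
    rcases hw with rfl | rfl
    · exact (hmn y (by simp) hne).ne
    · exact (hmn x (by simp) hne.symm).ne'
  -- no path with the ranks `5, 6, 5`
  have hpath : ∀ x y w, y ∈ nbr src dst x → w ∈ nbr src dst y → x ≠ w → ρ x = ρ w →
      ρ x ≤ ρ y → False := by
    intro x y w hy hw hxw h1 h2
    have hc := conn_insert (conn2 hy) (y := y) (x := w) (by simp) hw (by
      rw [mem_insert, mem_singleton, not_or]
      exact ⟨hxw.symm, (mem_nbr.1 hw).1⟩)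
    obtain ⟨v, hv, hmn⟩ := hρ _ hc
    rw [mem_insert, mem_insert, mem_singleton] at hv
    rcases hv with rfl | rfl | rfl
    · exact absurd (hmn x (by simp) hxw) (by omega)
    · exact absurd (hmn w (by simp) hxw.symm) (by omega)
    · exact absurd (hmn x (by simp) (mem_nbr.1 hy).1.symm) (by omega)
  refine (Hyp.cfg (N := N) (Z := insert m Z) ⟨hM, hN, h18,
    (card_insert_le _ _).trans (by omega), fun x hx hxZ => ?_⟩).false
  rw [mem_insert, not_or] at hxZ
  -- the neighbours outside `Z`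
  have hout : ∀ x y, x ∉ insert m Z → y ∈ nx src dst (insert m Z) x →
      y ∈ nbr src dst x ∧ y ≠ m ∧ y ∉ Z ∧ (x ∈ K ↔ y ∈ K) := by
    intro x y hxZ hy
    rw [mem_nx, mem_insert, not_or] at hy
    rw [mem_insert, not_or] at hxZ
    refine ⟨hy.1, hy.2.1, hy.2.2, fun hxK => ?_, fun hyK => ?_⟩
    · rcases mem_union.1 (hK.closed x hxK y hy.1) with h1 | h1
      · exact h1
      · exact absurd h1 hy.2.2
    · rcases mem_union.1 (hK.closed y hyK x (nbr_symm hy.1)) with h1 | h1
      · exact h1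
      · exact absurd h1 hxZ.2
  have hxZ' : x ∉ insert m Z := by rw [mem_insert, not_or]; exact hxZ
  by_cases hxK : x ∈ K
  · -- in the large component
    have hrk : ∀ y, y ∈ K → y ≠ m → ρ y = 5 ∨ ρ y = 6 := by
      intro y hy hym
      have := h5 y hy hym
      have := hρ7 y
      omega
    -- a vertex of rank six has at most one neighbour
    have h6 : ∀ y, y ∈ K → y ≠ m → ρ y = 6 → y ∉ Z →
        (nx src dst (insert m Z) y).card ≤ 1 := by
      intro y hyK hym hy6 hyZ
      rw [card_le_one]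
      intro a ha b hb
      by_contra hab
      have hyZ' : y ∉ insert m Z := by rw [mem_insert, not_or]; exact ⟨hym, hyZ⟩
      have h1 := hout y a hyZ' ha
      have h2 := hout y b hyZ' hb
      have h3 := hrk a (h1.2.2.2.1 hyK) h1.2.1
      have h4 := hrk b (h2.2.2.2.1 hyK) h2.2.1
      have h7 := hadj y a h1.1
      have h8 := hadj y b h2.1
      exact hpath a y b (nbr_symm h1.1) h2.1 hab (by omega) (by omega)
    rcases hrk x hxK hxZ.1 with h1 | h1
    · right
      intro y hy
      have h2 := hout x y hxZ' hy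
      have h3 := hrk y (h2.2.2.2.1 hxK) h2.2.1
      have h4 := hadj x y h2.1
      have h7 := h6 y (h2.2.2.2.1 hxK) h2.2.1 (by omega) h2.2.2.1
      have h8 : x ∈ nx src dst (insert m Z) y := nx_symm hxZ' hy
      exact (eq_of_subset_of_card_le (singleton_subset_iff.2 h8) (by
        rw [card_singleton]; exact h7)).symm
    · left
      exact h6 x hxK hxZ.1 h1 hxZ.2
  · left
    have h1 : nx src dst (insert m Z) x ⊆ (N \ (K ∪ Z)).erase x := by
      intro y hy
      have h2 := hout x y hxZ' hy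
      rw [mem_erase, mem_sdiff, mem_union, not_or]
      exact ⟨(mem_nbr.1 h2.1).1, (hN y).2 (nbr_nis h2.1), fun h3 => hxK (h2.2.2.2.2 h3), h2.2.2.1⟩
    have h2 := card_le_card h1
    rw [card_erase_of_mem (by
      rw [mem_sdiff, mem_union, not_or]
      exact ⟨hx, hxK, hxZ.2⟩)] at h2
    have := hK.rest
    omega

/-- **Tree-depth seven.** -/
theorem td7 {src dst : E → V} (hT : HasRk 7 src dst) (hP : ¬ PetMinor src dst)
    (hbr : Br src dst ∅ ∅) : FlowOn src dst ∅ ∅ := by
  by_contra hf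
  obtain ⟨s, d, ⟨h1, h2⟩, hM⟩ :=
    exists_minCx (MC.and (mc_rk (V := V) (E := E) 7) mc_noPet) src dst ⟨hT, hP⟩ hbr hf
  exact td_false hM h2 h1

end Pool.T9h45.TD
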