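import Mathlib

set_option autoImplicit false

/-!
# Flows for five hubs

The ten pairs of `0, ..., 4` are divided into five classes of two disjoint pairs; `col j k` is the
number which is in none of the two pairs of the class of `j k`.  (There are six such divisions; they
are the perfect matchings of the Petersen graph.)
-/

namespace Pool.T9h45.TD

abbrev K4 := ZMod 2 × ZMod 2

/-- the divisions and, for each set of classes, the values -/
def tab : List (Nat × List Nat) :=
  [(1209705281833784121552, [
     270818440202676, 257623226927444, 270801260071348, 253209070881188, 204845585123764,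
     191651445590436, 200432511699380, 191636418677076, 271093317061044, 121833537259860,
     279595202464228, 117419387750740, 139151912847796, 117161685535060, 204828405238244,
     191634276436388, 275215409334756, 262022343543204, 275199306336692, 262005167049044,
     209243631634916, 187254478555476, 209227535976932, 187238377163172, 275491431745972,
     262297217255764, 275473109453284, 262003016419748, 209794471661016, 112763644758356,
     209226462480868, 187236219193764]),
   (1258126757414685455120, [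
     274111605983860, 276297741093204, 256519419873908, 257610341517652, 203747152480884,
     204833779206484, 188353984432756, 188336815049044, 274395066387300, 276293449369940,
     256802886667108, 257601748486484, 135856604433012, 204825189370196, 117164911987556,
     188332520130900, 275215409433444, 275202524432724, 258727033064052, 258705558178132,
     205946175834740, 205928995866964, 187258778307428, 187241598388564, 275494850710372,
     275193934596436, 259001909873268, 258701263259988, 275494581194104, 205924706240852,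
     116065395165812, 187233003260244]),
   (814107414357566662744, [
     240035863825880, 257610870016340, 169667119664600, 204832709625240, 240031300423128,
     240015194295704, 204845590332888, 204830822205780, 257626976128472, 257601751697748,
     204849889494428, 204825193565524, 276318405365208, 256505457003156, 188357210883544,
     204828674739608, 275219707432408, 275203601304984, 187259850951068, 187242125822292,
     275216482027932, 275199566399828, 187254478065112, 187238371937688, 275218902175192,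
     275193937757660, 187257703450072, 187236761423256, 275212187125148, 275197418900888,
     205949661203928, 187236224419224]),
   (240964056279821686040, [
     244433913531768, 191648230690132, 244412438760824, 191640175461736, 240031303682412,
     204842369239380, 240018418714988, 204834046559592, 257620536872312, 204843443965268,
     270795888608620, 191631050819924, 279610500992376, 191649303447892, 253203701187960,
     204825189371220, 262021269899628, 209240416799060, 262008919639416, 209227531898216,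
     275219703287160, 187250183130452, 275202790737272, 187241593194876, 262018046838136,
     187251257985364, 262000329837944, 209223236930900, 275218629545396, 209241489427796,
     275194200935800, 187233003260244]),
   (612354513928452191328, [
     278496767479640, 263103604690260, 208145203169884, 191652528752980, 274115896658524,
     257623222241620, 203729972612952, 188336809823572, 278479654965080, 263086550665556,
     208110969260636, 191618294843732, 276572617950812, 257588925402452, 203712855640668,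
     188319692868948, 280695916579420, 262021272931668, 209227534911320, 192734860511572,
     275215471185752, 258705554000212, 205946175702620, 187254478064980, 280678741165660,
     261987039022420, 209210422429528, 192717806488916, 269683553584984, 258688437045588,
     209226456974808, 187220181223764]),
   (103772547348923818720, [
     270787430664556, 204850960615764, 257610338354540, 191656820820308, 270817362005368,
     204846664599892, 257623222207864, 191652524804436, 270796020467052, 200427276289384,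
     257601749075308, 191631050886484, 276293712561516, 200414324149608, 257588928529772,
     191618230863228, 275202657044844, 209249006865748, 261991337117036, 187258774572372,
     275215474837868, 209244710849876, 262021335042412, 187254478556500, 275194066717036,
     209223236929876, 261999927184760, 187233136495976, 275193934005624, 205924700997972,
     261986975040888, 187220184352104])]

/-- the colour of the pair `j k` -/
def cf (c j k : Nat) : Nat := Nat.land (Nat.shiftRight c (3 * (5 * j + k))) 7

/-- the value at `j k` -/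
def un (T j k : Nat) : Nat := Nat.land (Nat.shiftRight T (2 * (5 * j + k))) 3

set_option synthInstance.maxSize 100000 in
set_option maxRecDepth 100000 in
theorem six :
    ∀ a01 : Fin 5, (a01 ≠ 0 ∧ a01 ≠ 1) →
    ∀ a34 : Fin 5, (a34 ≠ 3 ∧ a34 ≠ 4 ∧ (a01 = 2 → a34 = 2) ∧ (a34 = 2 → a01 = 2)) →
    ∀ a24 : Fin 5, (a24 ≠ 2 ∧ a24 ≠ 4 ∧ (a01 = 3 → a24 = 3) ∧ (a24 = 3 → a01 = 3)) →
    ∀ a23 : Fin 5, (a23 ≠ 2 ∧ a23 ≠ 3 ∧ (a01 = 4 → a23 = 4) ∧ (a23 = 4 → a01 = 4)) →
    ∀ a02 : Fin 5, (a02 ≠ 0 ∧ a02 ≠ 2 ∧ (a34 = 1 → a02 = 1) ∧ (a02 = 1 → a34 = 1)) →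
    ∀ a13 : Fin 5, (a13 ≠ 1 ∧ a13 ≠ 3 ∧ (a24 = 0 → a13 = 0) ∧ (a02 = 4 → a13 = 4) ∧ (a13 = 0 →
      a24 = 0) ∧ (a13 = 4 → a02 = 4)) →
    ∀ a14 : Fin 5, (a14 ≠ 1 ∧ a14 ≠ 4 ∧ (a23 = 0 → a14 = 0) ∧ (a02 = 3 → a14 = 3) ∧ (a14 = 0 →
      a23 = 0) ∧ (a14 = 3 → a02 = 3)) →
    ∀ a03 : Fin 5, (a03 ≠ 0 ∧ a03 ≠ 3 ∧ (a24 = 1 → a03 = 1) ∧ (a14 = 2 → a03 = 2) ∧ (a03 = 1 →
      a24 = 1) ∧ (a03 = 2 → a14 = 2)) →
    ∀ a12 : Fin 5, (a12 ≠ 1 ∧ a12 ≠ 2 ∧ (a34 = 0 → a12 = 0) ∧ (a03 = 4 → a12 = 4) ∧ (a12 = 0 →
      a34 = 0) ∧ (a12 = 4 → a03 = 4)) →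
    ∀ a04 : Fin 5, (a04 ≠ 0 ∧ a04 ≠ 4 ∧ (a23 = 1 → a04 = 1) ∧ (a13 = 2 → a04 = 2) ∧ (a12 = 3 →
      a04 = 3) ∧ (a04 = 1 → a23 = 1) ∧ (a04 = 2 → a13 = 2) ∧ (a04 = 3 → a12 = 3)) →
      (tab.any fun t =>
        Nat.beq a01.val (cf t.1 0 1) &&
        (Nat.beq a02.val (cf t.1 0 2) &&
        (Nat.beq a03.val (cf t.1 0 3) &&
        (Nat.beq a04.val (cf t.1 0 4) &&
        (Nat.beq a12.val (cf t.1 1 2) &&
        (Nat.beq a13.val (cf t.1 1 3) &&
        (Nat.beq a14.val (cf t.1 1 4) &&
        (Nat.beq a23.val (cf t.1 2 3) &&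
        (Nat.beq a24.val (cf t.1 2 4) &&
        Nat.beq a34.val (cf t.1 3 4)))))))))) = true := by
  decide +kernel

def fx (T i : Nat) : Nat :=
  Nat.xor (un T i 0) (Nat.xor (un T i 1) (Nat.xor (un T i 2) (Nat.xor (un T i 3) (un T i 4))))

def R5 : List Nat := [0, 1, 2, 3, 4]

def chkc (c : Nat) : Bool :=
  (R5.all fun j => R5.all fun k => R5.all fun l => Nat.beq j k || (Nat.beq j l || (Nat.beq k l ||
    !(Nat.beq (cf c j k) (cf c j l))))) &&
  (R5.all fun i => R5.any fun j => R5.any fun k => !(Nat.beq j k) && Nat.beq (cf c j k) i) &&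
  (R5.all fun j => R5.all fun k => Nat.beq j k || Nat.beq (cf c j k) (cf c k j))

set_option maxRecDepth 100000 in
theorem tab_c : (tab.all fun t => chkc t.1) = true := by
  decide +kernel

def chk5 (c m T : Nat) : Bool :=
  (R5.all fun j => R5.all fun k =>
    (if Nat.beq j k then Nat.beq (un T j k) 0 else
      (!(Nat.beq (un T j k) 0) && (!(Nat.beq (un T j k) (un T k j)) &&
      Nat.beq (cf c j k) (cf c k j))) &&
      R5.all fun l => Nat.beq l j || (Nat.beq l k || (Nat.beq l (cf c j k) ||
        R5.all fun n => Nat.beq n j || (Nat.beq n k || (Nat.beq n l || (Nat.beq n (cf c j k) ||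
          Nat.beq (Nat.xor (Nat.xor (un T j k) (un T k j)) (Nat.xor (un T l n) (un T n l)))
            (fx T (cf c j k))))))))) &&
  R5.all fun i => (Nat.beq (fx T i) 0) == Nat.testBit m i

set_option maxRecDepth 100000 in
theorem tab_ok : (tab.all fun t => (List.range 32).all fun m => chk5 t.1 m (t.2.getD m 0)) = true := by
  decide +kernel

/-- the group element -/
def kk (n : Nat) : K4 := (if n.testBit 0 then 1 else 0, if n.testBit 1 then 1 else 0)

theorem kk_xor (a b : Nat) : kk (Nat.xor a b) = kk a + kk b := by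
  change kk (a ^^^ b) = _
  unfold kk
  rw [Nat.testBit_xor, Nat.testBit_xor]
  cases a.testBit 0 <;> cases b.testBit 0 <;> cases a.testBit 1 <;> cases b.testBit 1 <;> decide

theorem kk_inj {a b : Nat} (ha : a < 4) (hb : b < 4) (h : kk a = kk b) : a = b := by
  have : ∀ a b : Fin 4, kk a.val = kk b.val → a = b := by decide
  exact congrArg Fin.val (this ⟨a, ha⟩ ⟨b, hb⟩ h)

theorem un_lt (T j k : Nat) : un T j k < 4 :=
  lt_of_le_of_lt Nat.and_le_right (by norm_num)

theorem fx_lt (T i : Nat) : fx T i < 4 := by
  have key : ∀ a b : Nat, a < 4 → b < 4 → Nat.xor a b < 4 := fun a b ha hb =>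
    Nat.xor_lt_two_pow (n := 2) ha hb
  exact key _ _ (un_lt _ _ _) (key _ _ (un_lt _ _ _) (key _ _ (un_lt _ _ _)
    (key _ _ (un_lt _ _ _) (un_lt _ _ _))))

theorem mem5 (i : Fin 5) : i.val ∈ R5 := by
  revert i; decide

theorem b1 (j k : Fin 5) (h : j ≠ k) : Nat.beq j.val k.val = false := by
  rw [← Bool.not_eq_true, Nat.beq_eq]
  exact fun h' => h (Fin.ext h')

theorem five (i : Nat) (h : i ∈ R5) : ∃ j : Fin 5, j.val = i := by
  have : i < 5 := by
    simp only [R5, List.mem_cons, List.not_mem_nil, or_false] at h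
    omega
  exact ⟨⟨i, this⟩, rfl⟩

theorem tabOf (col : Fin 5 → Fin 5 → Fin 5) (h1 : ∀ j k, col j k = col k j)
    (h2 : ∀ j k, j ≠ k → col j k ≠ j)
    (h3 : ∀ j k l m v, j ≠ k → l ≠ m → v ∉ [j, k, l, m] → j ∉ [l, m] → k ∉ [l, m] →
      col j k = v → col l m = v) :
    ∃ t ∈ tab, ∀ j k : Fin 5, j ≠ k → (col j k).val = cf t.1 j k := by
  have h2r : ∀ j k, j ≠ k → col j k ≠ k := fun j k h => by
    rw [h1]; exact h2 k j h.symm
  have hs := six (col 0 1)
    ⟨h2 0 1 (by decide), h2r 0 1 (by decide)⟩
    (col 3 4)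
    ⟨h2 3 4 (by decide), h2r 3 4 (by decide), h3 0 1 3 4 2 (by decide) (by decide) (by decide)
      (by decide) (by decide), h3 3 4 0 1 2 (by decide) (by decide) (by decide) (by decide) (by
      decide)⟩
    (col 2 4)
    ⟨h2 2 4 (by decide), h2r 2 4 (by decide), h3 0 1 2 4 3 (by decide) (by decide) (by decide)
      (by decide) (by decide), h3 2 4 0 1 3 (by decide) (by decide) (by decide) (by decide) (by
      decide)⟩
    (col 2 3)
    ⟨h2 2 3 (by decide), h2r 2 3 (by decide), h3 0 1 2 3 4 (by decide) (by decide) (by decide)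
      (by decide) (by decide), h3 2 3 0 1 4 (by decide) (by decide) (by decide) (by decide) (by
      decide)⟩
    (col 0 2)
    ⟨h2 0 2 (by decide), h2r 0 2 (by decide), h3 3 4 0 2 1 (by decide) (by decide) (by decide)
      (by decide) (by decide), h3 0 2 3 4 1 (by decide) (by decide) (by decide) (by decide) (by
      decide)⟩
    (col 1 3)
    ⟨h2 1 3 (by decide), h2r 1 3 (by decide), h3 2 4 1 3 0 (by decide) (by decide) (by decide)
      (by decide) (by decide), h3 0 2 1 3 4 (by decide) (by decide) (by decide) (by decide) (by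
      decide), h3 1 3 2 4 0 (by decide) (by decide) (by decide) (by decide) (by decide), h3 1 3 0
      2 4 (by decide) (by decide) (by decide) (by decide) (by decide)⟩
    (col 1 4)
    ⟨h2 1 4 (by decide), h2r 1 4 (by decide), h3 2 3 1 4 0 (by decide) (by decide) (by decide)
      (by decide) (by decide), h3 0 2 1 4 3 (by decide) (by decide) (by decide) (by decide) (by
      decide), h3 1 4 2 3 0 (by decide) (by decide) (by decide) (by decide) (by decide), h3 1 4 0
      2 3 (by decide) (by decide) (by decide) (by decide) (by decide)⟩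
    (col 0 3)
    ⟨h2 0 3 (by decide), h2r 0 3 (by decide), h3 2 4 0 3 1 (by decide) (by decide) (by decide)
      (by decide) (by decide), h3 1 4 0 3 2 (by decide) (by decide) (by decide) (by decide) (by
      decide), h3 0 3 2 4 1 (by decide) (by decide) (by decide) (by decide) (by decide), h3 0 3 1
      4 2 (by decide) (by decide) (by decide) (by decide) (by decide)⟩
    (col 1 2)
    ⟨h2 1 2 (by decide), h2r 1 2 (by decide), h3 3 4 1 2 0 (by decide) (by decide) (by decide)
      (by decide) (by decide), h3 0 3 1 2 4 (by decide) (by decide) (by decide) (by decide) (by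
      decide), h3 1 2 3 4 0 (by decide) (by decide) (by decide) (by decide) (by decide), h3 1 2 0
      3 4 (by decide) (by decide) (by decide) (by decide) (by decide)⟩
    (col 0 4)
    ⟨h2 0 4 (by decide), h2r 0 4 (by decide), h3 2 3 0 4 1 (by decide) (by decide) (by decide)
      (by decide) (by decide), h3 1 3 0 4 2 (by decide) (by decide) (by decide) (by decide) (by
      decide), h3 1 2 0 4 3 (by decide) (by decide) (by decide) (by decide) (by decide), h3 0 4 2
      3 1 (by decide) (by decide) (by decide) (by decide) (by decide), h3 0 4 1 3 2 (by decide)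
      (by decide) (by decide) (by decide) (by decide), h3 0 4 1 2 3 (by decide) (by decide) (by
      decide) (by decide) (by decide)⟩
  rw [List.any_eq_true] at hs
  obtain ⟨t, ht, hs⟩ := hs
  simp only [Bool.and_eq_true, Nat.beq_eq] at hs
  obtain ⟨k01, k02, k03, k04, k12, k13, k14, k23, k24, k34⟩ := hs
  have hc := List.all_eq_true.1 tab_c t ht
  unfold chkc at hc
  rw [Bool.and_eq_true, Bool.and_eq_true] at hc
  have hsym : ∀ j k : Fin 5, j ≠ k → cf t.1 j k = cf t.1 k j := by
    intro j k h
    have := List.all_eq_true.1 (List.all_eq_true.1 hc.2 j.val (mem5 j)) k.val (mem5 k)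
    rw [b1 j k h, Bool.false_or, Nat.beq_eq] at this
    exact this
  refine ⟨t, ht, ?_⟩
  have hlt : ∀ j k : Fin 5, j < k → (col j k).val = cf t.1 j k := by
    intro j k h
    fin_cases j <;> fin_cases k <;> first | exact absurd h (by decide) | assumption
  intro j k h
  rcases lt_or_gt_of_ne h with h' | h'
  · exact hlt j k h'
  · rw [h1, hsym j k h]
    exact hlt k j h'

theorem col_props (col : Fin 5 → Fin 5 → Fin 5) (h1 : ∀ j k, col j k = col k j)
    (h2 : ∀ j k, j ≠ k → col j k ≠ j)
    (h3 : ∀ j k l m v, j ≠ k → l ≠ m → v ∉ [j, k, l, m] → j ∉ [l, m] → k ∉ [l, m] →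
      col j k = v → col l m = v) :
    (∀ j k l, j ≠ k → j ≠ l → k ≠ l → col j k ≠ col j l) ∧ ∀ i, ∃ j k, j ≠ k ∧ col j k = i := by
  obtain ⟨t, ht, hcf⟩ := tabOf col h1 h2 h3
  have hc := List.all_eq_true.1 tab_c t ht
  unfold chkc at hc
  rw [Bool.and_eq_true, Bool.and_eq_true] at hc
  refine ⟨fun j k l hjk hjl hkl h => ?_, fun i => ?_⟩
  · have := List.all_eq_true.1 (List.all_eq_true.1 (List.all_eq_true.1 hc.1.1 j.val (mem5 j))
      k.val (mem5 k)) l.val (mem5 l)
    rw [b1 j k hjk, b1 j l hjl, b1 k l hkl, Bool.false_or, Bool.false_or, Bool.false_or,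
      ← hcf j k hjk, ← hcf j l hjl, h] at this
    simp at this
  · have := List.all_eq_true.1 hc.1.2 i.val (mem5 i)
    rw [List.any_eq_true] at this
    obtain ⟨j, hj, this⟩ := this
    rw [List.any_eq_true] at this
    obtain ⟨k, hk, this⟩ := this
    obtain ⟨j, rfl⟩ := five j hj
    obtain ⟨k, rfl⟩ := five k hk
    rw [Bool.and_eq_true, Bool.not_eq_true', Nat.beq_eq] at this
    have hjk : j ≠ k := by
      rintro rfl
      simp at this
    exact ⟨j, k, hjk, Fin.ext ((hcf j k hjk).trans this.2)⟩

theorem fin5 (col : Fin 5 → Fin 5 → Fin 5) (M : Fin 5 → Bool) (h1 : ∀ j k, col j k = col k j)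
    (h2 : ∀ j k, j ≠ k → col j k ≠ j)
    (h3 : ∀ j k l m v, j ≠ k → l ≠ m → v ∉ [j, k, l, m] → j ∉ [l, m] → k ∉ [l, m] →
      col j k = v → col l m = v) :
    ∃ u : Fin 5 → Fin 5 → K4, (∀ i, u i i = 0) ∧ (∀ j k, j ≠ k → u j k ≠ 0 ∧ u j k ≠ u k j) ∧
      (∀ j k l m, j ≠ k → j ≠ l → j ≠ m → k ≠ l → k ≠ m → l ≠ m → col j k ≠ l → col j k ≠ m →
        (u j k + u k j) + (u l m + u m l) = ∑ p, u (col j k) p) ∧
      ∀ i, ((∑ p, u i p) = 0 ↔ M i = true) := by
  obtain ⟨t, ht, hcf⟩ := tabOf col h1 h2 h3
  have hm := List.all_eq_true.1 tab_ok t ht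
  obtain ⟨m, hm32, hmM⟩ : ∃ m, m < 32 ∧ ∀ i : Fin 5, m.testBit i = M i := by
    refine ⟨Nat.ofBits M, Nat.ofBits_lt_two_pow M, fun i => ?_⟩
    exact Nat.testBit_ofBits_lt M i.val i.2
  have hm2 := List.all_eq_true.1 hm m (List.mem_range.2 hm32)
  obtain ⟨T, hT⟩ : ∃ T, T = t.2.getD m 0 := ⟨_, rfl⟩
  rw [← hT] at hm2
  unfold chk5 at hm2
  rw [Bool.and_eq_true, List.all_eq_true, List.all_eq_true] at hm2
  obtain ⟨c1, c2⟩ := hm2
  have c1' : ∀ j k : Fin 5, j ≠ k → (un T j k ≠ 0 ∧ un T j k ≠ un T k j ∧
      cf t.1 j k = cf t.1 k j) ∧ (R5.all fun l => Nat.beq l j || (Nat.beq l k || (Nat.beq l (cf t.1 j k) ||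
        R5.all fun n => Nat.beq n j || (Nat.beq n k || (Nat.beq n l || (Nat.beq n (cf t.1 j k) ||
          Nat.beq (Nat.xor (Nat.xor (un T j k) (un T k j)) (Nat.xor (un T l n) (un T n l)))
            (fx T (cf t.1 j k)))))))) = true := by
    intro j k h
    have := List.all_eq_true.1 (c1 j.val (mem5 j)) k.val (mem5 k)
    rw [b1 j k h, if_neg Bool.false_ne_true, Bool.and_eq_true, Bool.and_eq_true, Bool.and_eq_true,
      Bool.not_eq_true', Bool.not_eq_true', ← Bool.not_eq_true, ← Bool.not_eq_true, Nat.beq_eq,
      Nat.beq_eq, Nat.beq_eq] at this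
    exact this
  have c0 : ∀ j : Fin 5, un T j j = 0 := by
    intro j
    have := List.all_eq_true.1 (c1 j.val (mem5 j)) j.val (mem5 j)
    rw [if_pos (by rw [Nat.beq_eq]), Nat.beq_eq] at this
    exact this
  have hfx : ∀ i : Fin 5, ∑ p : Fin 5, kk (un T i p) = kk (fx T i) := by
    intro i
    rw [Fin.sum_univ_five]
    unfold fx
    rw [kk_xor, kk_xor, kk_xor, kk_xor]
    simp only [add_assoc]
    rfl
  refine ⟨fun j k => kk (un T j k), fun i => ?_, fun j k h => ⟨?_, ?_⟩, ?_, fun i => ?_⟩
  · change kk (un T i i) = 0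
    rw [c0]; decide
  · intro h'
    change kk (un T j k) = 0 at h'
    have h0 : kk (un T j k) = kk 0 := by rw [h']; decide
    exact (c1' j k h).1.1 (kk_inj (un_lt _ _ _) (by norm_num) h0)
  · intro h'
    exact (c1' j k h).1.2.1 (kk_inj (un_lt _ _ _) (un_lt _ _ _) h')
  · intro j k l n hjk hjl hjn hkl hkn hln hcl hcn
    have e1 := (c1' j k hjk).2
    have e2 := List.all_eq_true.1 e1 l.val (mem5 l)
    have f1 : Nat.beq l.val (cf t.1 j k) = false := by
      rw [← hcf j k hjk]
      exact b1 _ _ (Ne.symm hcl)
    rw [b1 l j hjl.symm, b1 l k hkl.symm, f1, Bool.false_or, Bool.false_or, Bool.false_or] at e2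
    have e3 := List.all_eq_true.1 e2 n.val (mem5 n)
    have f2 : Nat.beq n.val (cf t.1 j k) = false := by
      rw [← hcf j k hjk]
      exact b1 _ _ (Ne.symm hcn)
    rw [b1 n j hjn.symm, b1 n k hkn.symm, b1 n l hln.symm, f2, Bool.false_or, Bool.false_or,
      Bool.false_or, Bool.false_or, Nat.beq_eq] at e3
    change kk (un T j k) + kk (un T k j) + (kk (un T l n) + kk (un T n l)) =
      ∑ p : Fin 5, kk (un T (col j k) p)
    rw [hfx, hcf j k hjk, ← e3, kk_xor, kk_xor, kk_xor]
  · change (∑ p : Fin 5, kk (un T i p)) = 0 ↔ _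
    rw [hfx]
    have e1 := c2 i.val (mem5 i)
    rw [hmM, beq_iff_eq] at e1
    rw [← e1, Nat.beq_eq]
    constructor
    · intro h
      exact kk_inj (fx_lt _ _) (by norm_num) (h.trans (by decide))
    · intro h
      rw [h]; decide

end Pool.T9h45.TD
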