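import Pool.Agent.T9h45.TD.Idx

set_option autoImplicit false
set_option linter.unusedSectionVars false

/-! # Five vertices whose deletion leaves a star forest: the flow -/

namespace Pool.T9h45.TD

open Finset Pool.Agent.TH462.T4 Pool.Agent.TH676.T4 Pool.Agent.TH497.T4 Pool.Agent.N399.TB

variable {V E : Type} [Fintype V] [DecidableEq V] [Fintype E] [DecidableEq E]
variable {src dst : E → V} {Z : Finset V}
variable {z : Fin 5 → V} {lf : Fin 5 → Fin 5 → V} {pt : V → V} {col : Fin 5 → Fin 5 → Fin 5}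

/-- the values -/
structure Val (src dst : E → V) (Z : Finset V) (z : Fin 5 → V) (lf : Fin 5 → Fin 5 → V)
    (pt : V → V) (col : Fin 5 → Fin 5 → Fin 5) (u : Fin 5 → Fin 5 → K4) : Prop where
  u0 : ∀ i, u i i = 0
  u1 : ∀ j k, j ≠ k → u j k ≠ 0 ∧ u j k ≠ u k j
  u2 : ∀ j k l m, j ≠ k → j ≠ l → j ≠ m → k ≠ l → k ≠ m → l ≠ m → col j k ≠ l → col j k ≠ m →
    (u j k + u k j) + (u l m + u m l) = ∑ p, u (col j k) p
  u3 : ∀ j k, j ≠ k → ((∑ p, u (col j k) p) = 0 ↔ nx src dst Z (lf j k) = {pt (lf j k)})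

theorem Idx.val (h : Idx src dst Z z lf pt col) : ∃ u, Val src dst Z z lf pt col u := by
  classical
  obtain ⟨M, hM⟩ : ∃ M : Fin 5 → Bool, M = fun i => decide (∃ j k, j ≠ k ∧ col j k = i ∧
      nx src dst Z (lf j k) = {pt (lf j k)}) := ⟨_, rfl⟩
  obtain ⟨u, h0, h1, h2, h3⟩ := fin5 col M h.col1 h.col2 h.col3
  refine ⟨u, h0, h1, h2, fun j k hjk => ?_⟩
  rw [h3, hM, decide_eq_true_iff]
  constructor
  · rintro ⟨j', k', hjk', hc, hn⟩
    rcases h.same hjk' hjk hc with h4 | h4
    · rw [h4]; exact hn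
    · have h5 := (h.lfp j' k' hjk').1
      have h6 := h.ptp _ h5
      rw [h4, h.pt_pt h5]
      rcases h6.2.2 with ⟨_, h8⟩ | ⟨c, hc, h7, h8, h9⟩
      · exact h8
      · exfalso
        rw [hn, singleton_inj] at h7
        rw [← h7] at hc
        exact not_both h6.1 hc
  · intro hn
    exact ⟨j, k, hjk, rfl, hn⟩

open Classical in
/-- the value of the flow at the edge from a leaf `x` to a vertex `y` in `Z` -/
noncomputable def Uf (z : Fin 5 → V) (lf : Fin 5 → Fin 5 → V) (u : Fin 5 → Fin 5 → K4)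
    (x y : V) : K4 :=
  ∑ j, ∑ k, if j ≠ k ∧ x = lf j k ∧ y = z j then u j k else 0

theorem Idx.uf (h : Idx src dst Z z lf pt col) (u : Fin 5 → Fin 5 → K4) {j k : Fin 5}
    (hjk : j ≠ k) : Uf z lf u (lf j k) (z j) = u j k := by
  unfold Uf
  rw [sum_eq_single j, sum_eq_single k]
  · rw [if_pos ⟨hjk, rfl, rfl⟩]
  · intro k' _ hk
    rw [if_neg]
    rintro ⟨h1, h2, -⟩
    have h3 := (h.mem_lf h1 k).1 (by rw [← h2, h.mem_lf hjk]; exact Or.inr rfl)
    rcases h3 with h3 | h3
    · exact hjk h3.symm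
    · exact hk h3.symm
  · intro h'; exact absurd (mem_univ _) h'
  · intro j' _ hj
    refine sum_eq_zero fun k' _ => if_neg ?_
    rintro ⟨-, -, h1⟩
    exact hj (h.zi h1).symm
  · intro h'; exact absurd (mem_univ _) h'

/-- the value at the other edge at a leaf -/
noncomputable def Df (src dst : E → V) (Z : Finset V) (z : Fin 5 → V) (lf : Fin 5 → Fin 5 → V)
    (u : Fin 5 → Fin 5 → K4) (x : V) : K4 := ∑ y ∈ nz src dst Z x, Uf z lf u x y

theorem Idx.df (h : Idx src dst Z z lf pt col) (u : Fin 5 → Fin 5 → K4) {j k : Fin 5}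
    (hjk : j ≠ k) : Df src dst Z z lf u (lf j k) = u j k + u k j := by
  unfold Df
  rw [(h.lfp j k hjk).2, sum_pair (fun h' => hjk (h.zi h')), h.uf u hjk]
  rw [h.lf_symm hjk, h.uf u hjk.symm]

/-- the value at the edge from a centre to `Z` -/
noncomputable def Ff (src dst : E → V) (Z : Finset V) (z : Fin 5 → V) (lf : Fin 5 → Fin 5 → V)
    (u : Fin 5 → Fin 5 → K4) (x : V) : K4 := ∑ y ∈ nx src dst Z x, Df src dst Z z lf u y

theorem Val.dd {u : Fin 5 → Fin 5 → K4} (hu : Val src dst Z z lf pt col u)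
    (h : Idx src dst Z z lf pt col) {j k : Fin 5} (hjk : j ≠ k) :
    Df src dst Z z lf u (lf j k) + Df src dst Z z lf u (pt (lf j k)) = ∑ p, u (col j k) p := by
  have h1 := (h.lfp j k hjk).1
  have h2 := h.ptp _ h1
  obtain ⟨l, m, hlm, hx⟩ := h.sur _ h2.1
  have hd := h.cfg.pn_disj h2.2
  have key : ∀ i, i = l ∨ i = m → i ≠ j ∧ i ≠ k := by
    intro i hi
    have h3 : z i ∈ nz src dst Z (pt (lf j k)) := by
      rw [hx, h.mem_lf hlm]; exact hi
    have h4 : z i ∉ nz src dst Z (lf j k) := fun h' => disjoint_left.1 hd h' h3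
    rw [h.mem_lf hjk, not_or] at h4
    exact h4
  have kl := key l (Or.inl rfl)
  have km := key m (Or.inr rfl)
  have hc := (h.colp j k hjk).2
  rw [hx, h.mem_lf hlm, not_or] at hc
  rw [hx, h.df u hjk, h.df u hlm]
  exact hu.u2 j k l m hjk kl.1.symm km.1.symm kl.2.symm km.2.symm hlm hc.1 hc.2

/-- a centre -/
theorem Val.cen {u : Fin 5 → Fin 5 → K4} (hu : Val src dst Z z lf pt col u)
    (h : Idx src dst Z z lf pt col) {c : V} (hc : Ce src dst Z c) :
    ∃ j k, j ≠ k ∧ nx src dst Z c = {lf j k, pt (lf j k)} ∧ nx src dst Z (lf j k) = {c} ∧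
      nz src dst Z c = {z (col j k)} ∧ Ff src dst Z z lf u c = ∑ p, u (col j k) p ∧
      Ff src dst Z z lf u c ≠ 0 := by
  obtain ⟨x, y, hxy, hcx⟩ := card_eq_two.1 hc.2.2
  have hx : x ∈ nx src dst Z c := by rw [hcx]; simp
  have hy : y ∈ nx src dst Z c := by rw [hcx]; simp
  have h1 := (h.cfg.ce1 hc).2 x hx
  have h2 := (h.cfg.ce1 hc).2 y hy
  have hp : Pn src dst Z x y := ⟨hxy, Or.inr ⟨c, hc, h1.2, h2.2, hcx⟩⟩
  obtain ⟨j, k, hjk, rfl⟩ := h.sur x h1.1
  have hyp : y = pt (lf j k) := hp.uniq (h.ptp _ h1.1).2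
  subst hyp
  have hF : Ff src dst Z z lf u c = ∑ p, u (col j k) p := by
    unfold Ff
    rw [hcx, sum_pair hxy]
    exact hu.dd h hjk
  obtain ⟨p, hpz⟩ := card_eq_one.1 (h.cfg.ce1 hc).1
  have hpm : p ∈ nz src dst Z c := by rw [hpz]; simp
  obtain ⟨i, rfl⟩ := (h.zZ p).1 (mem_nz.1 hpm).2
  have d1 := nz_disj' h.cfg.min (Z := Z) (mem_nx.1 hx).1
  have d2 := nz_disj' h.cfg.min (Z := Z) (mem_nx.1 hy).1
  have hi : i = col j k := h.col_eq hjk (disjoint_left.1 d1 hpm) (disjoint_left.1 d2 hpm)
  refine ⟨j, k, hjk, hcx, h1.2, by rw [hpz, hi], hF, ?_⟩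
  rw [hF]
  intro h0
  rw [hu.u3 j k hjk, h1.2, singleton_inj] at h0
  rw [h0] at hc
  exact not_both (h.ptp _ h1.1).1 hc

open Classical in
/-- the flow -/
noncomputable def wf (src dst : E → V) (Z : Finset V) (z : Fin 5 → V) (lf : Fin 5 → Fin 5 → V)
    (u : Fin 5 → Fin 5 → K4) (x y : V) : K4 :=
  if y ∉ nbr src dst x then 0 else
  if x ∈ Z then (if y ∈ Z then 0 else if (nx src dst Z y).card = 1 then Uf z lf u y x else
    Ff src dst Z z lf u y) else
  if y ∈ Z then (if (nx src dst Z x).card = 1 then Uf z lf u x y else Ff src dst Z z lf u x) else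
  if (nx src dst Z x).card = 1 then Df src dst Z z lf u x else Df src dst Z z lf u y

theorem K4z : ∀ a b : K4, a + b = 0 → a = b := by decide

theorem Val.symm {u : Fin 5 → Fin 5 → K4} (hu : Val src dst Z z lf pt col u)
    (h : Idx src dst Z z lf pt col) (x y : V) :
    wf src dst Z z lf u x y = wf src dst Z z lf u y x := by
  unfold wf
  by_cases h1 : y ∈ nbr src dst x
  · have h2 := nbr_symm h1
    rw [if_neg (not_not.2 h1), if_neg (not_not.2 h2)]
    by_cases hx : x ∈ Z <;> by_cases hy : y ∈ Z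
    · simp only [if_pos hx, if_pos hy]
    · simp only [if_pos hx, if_neg hy]
    · simp only [if_neg hx, if_pos hy]
    · simp only [if_neg hx, if_neg hy]
      have nxx : y ∈ nx src dst Z x := mem_nx.2 ⟨h1, hy⟩
      have nyy : x ∈ nx src dst Z y := mem_nx.2 ⟨h2, hx⟩
      rcases h.cfg.lc (nx_nis nyy) hx with lx | cx <;> rcases h.cfg.lc (nx_nis nxx) hy with ly | cy
      · rw [if_pos lx.2.2, if_pos ly.2.2]
        obtain ⟨j, k, hjk, rfl⟩ := h.sur x lx
        obtain ⟨a, ha⟩ := card_eq_one.1 lx.2.2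
        obtain ⟨b, hb⟩ := card_eq_one.1 ly.2.2
        rw [ha, mem_singleton] at nxx
        rw [hb, mem_singleton] at nyy
        subst nxx
        subst nyy
        have hp : Pn src dst Z (lf j k) y := ⟨(mem_nbr.1 h2).1, Or.inl ⟨ha, hb⟩⟩
        have hyp : y = pt (lf j k) := hp.uniq (h.ptp _ lx).2
        have h0 := (hu.u3 j k hjk).2 (by rw [ha, hyp])
        have h3 := hu.dd h hjk
        rw [h0, ← hyp] at h3
        exact K4z _ _ h3
      · have : ¬ (nx src dst Z y).card = 1 := by rw [cy.2.2]; omega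
        rw [if_pos lx.2.2, if_neg this]
      · have : ¬ (nx src dst Z x).card = 1 := by rw [cx.2.2]; omega
        rw [if_pos ly.2.2, if_neg this]
      · exact absurd cy (fun h' => not_both ((h.cfg.ce1 cx).2 y nxx).1 h')
  · have h2 : x ∉ nbr src dst y := fun h' => h1 (nbr_symm h')
    rw [if_pos h1, if_pos h2]

theorem Val.nonzero {u : Fin 5 → Fin 5 → K4} (hu : Val src dst Z z lf pt col u)
    (h : Idx src dst Z z lf pt col) {x y : V} (hxy : y ∈ nbr src dst x) :
    wf src dst Z z lf u x y ≠ 0 := by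
  have hD : ∀ x, Lf src dst Z x → Df src dst Z z lf u x ≠ 0 := by
    intro x hx
    obtain ⟨j, k, hjk, rfl⟩ := h.sur x hx
    rw [h.df u hjk]
    exact fun h' => (hu.u1 j k hjk).2 (K4z _ _ h')
  have hU : ∀ x y, Lf src dst Z x → y ∈ nz src dst Z x → Uf z lf u x y ≠ 0 := by
    intro x y hx hy
    obtain ⟨j, k, hjk, rfl⟩ := h.sur x hx
    rw [(h.lfp j k hjk).2, mem_insert, mem_singleton] at hy
    rcases hy with rfl | rfl
    · rw [h.uf u hjk]; exact (hu.u1 j k hjk).1
    · rw [h.lf_symm hjk, h.uf u hjk.symm]; exact (hu.u1 k j hjk.symm).1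
  have key : ∀ x y, y ∈ nbr src dst x → x ∉ Z → wf src dst Z z lf u x y ≠ 0 := by
    intro x y hxy hx
    have nx1 : Nis src dst x := nbr_nis (nbr_symm hxy)
    unfold wf
    rw [if_neg (not_not.2 hxy), if_neg hx]
    by_cases hy : y ∈ Z
    · rw [if_pos hy]
      rcases h.cfg.lc nx1 hx with lx | cx
      · rw [if_pos lx.2.2]
        exact hU x y lx (mem_nz.2 ⟨hxy, hy⟩)
      · have : ¬ (nx src dst Z x).card = 1 := by rw [cx.2.2]; omega
        rw [if_neg this]
        obtain ⟨_, _, _, _, _, _, _, h0⟩ := hu.cen h cx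
        exact h0
    · rw [if_neg hy]
      rcases h.cfg.lc nx1 hx with lx | cx
      · rw [if_pos lx.2.2]
        exact hD x lx
      · have : ¬ (nx src dst Z x).card = 1 := by rw [cx.2.2]; omega
        rw [if_neg this]
        exact hD y ((h.cfg.ce1 cx).2 y (mem_nx.2 ⟨hxy, hy⟩)).1
  by_cases hx : x ∈ Z
  · by_cases hy : y ∈ Z
    · exfalso
      have h1 := h.cfg.zz x hx
      have h2 : y ∈ nz src dst Z x := mem_nz.2 ⟨hxy, hy⟩
      rw [h1] at h2
      exact notMem_empty _ h2
    · rw [hu.symm h]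
      exact key y x (nbr_symm hxy) hy
  · exact key x y hxy hx

theorem Val.sum0 {u : Fin 5 → Fin 5 → K4} (hu : Val src dst Z z lf pt col u)
    (h : Idx src dst Z z lf pt col) (v : V) : ∑ y, wf src dst Z z lf u v y = 0 := by
  classical
  have h1 : ∑ y, wf src dst Z z lf u v y = (∑ y ∈ nz src dst Z v, wf src dst Z z lf u v y) +
      ∑ y ∈ nx src dst Z v, wf src dst Z z lf u v y := by
    have e1 : ∑ y, wf src dst Z z lf u v y = ∑ y ∈ nbr src dst v, wf src dst Z z lf u v y := by
      symm
      apply sum_subset (subset_univ _)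
      intro y _ hy
      unfold wf
      rw [if_pos hy]
    rw [e1]
    exact (sum_inter_add_sum_sdiff _ _ _).symm
  rw [h1]
  by_cases hv : v ∈ Z
  · rw [h.cfg.zz v hv, sum_empty, zero_add]
    obtain ⟨i, rfl⟩ := (h.zZ v).1 hv
    rw [← sum_filter_add_sum_filter_not (nx src dst Z (z i))
      (fun y => (nx src dst Z y).card = 1)]
    have hval : ∀ y ∈ nx src dst Z (z i), wf src dst Z z lf u (z i) y =
        if (nx src dst Z y).card = 1 then Uf z lf u y (z i) else Ff src dst Z z lf u y := by
      intro y hy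
      unfold wf
      rw [if_neg (not_not.2 (mem_nx.1 hy).1), if_pos hv, if_neg (mem_nx.1 hy).2]
    -- the leaves
    have hleaf : (nx src dst Z (z i)).filter (fun y => (nx src dst Z y).card = 1) =
        (univ.erase i).image (fun p => lf i p) := by
      ext y
      rw [mem_filter, mem_image]
      constructor
      · rintro ⟨hy, hy1⟩
        have hly : Lf src dst Z y := ⟨nx_nis hy, (mem_nx.1 hy).2, hy1⟩
        obtain ⟨j, k, hjk, rfl⟩ := h.sur y hly
        have h2 : z i ∈ nz src dst Z (lf j k) := mem_nz.2 ⟨nbr_symm (mem_nx.1 hy).1, hv⟩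
        rw [h.mem_lf hjk] at h2
        rcases h2 with rfl | rfl
        · exact ⟨k, mem_erase.2 ⟨hjk.symm, mem_univ _⟩, rfl⟩
        · exact ⟨j, mem_erase.2 ⟨hjk, mem_univ _⟩, h.lf_symm hjk.symm⟩
      · rintro ⟨p, hp, rfl⟩
        have hip := (mem_erase.1 hp).1.symm
        have h2 := (h.lfp i p hip).1
        have h3 : z i ∈ nz src dst Z (lf i p) := by rw [h.mem_lf hip]; exact Or.inl rfl
        exact ⟨mem_nx.2 ⟨nbr_symm (mem_nz.1 h3).1, h2.2.1⟩, h2.2.2⟩
    have s1 : ∑ y ∈ (nx src dst Z (z i)).filter (fun y => (nx src dst Z y).card = 1),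
        wf src dst Z z lf u (z i) y = ∑ p, u i p := by
      rw [sum_congr rfl fun y hy => (hval y (mem_filter.1 hy).1).trans
        (if_pos (mem_filter.1 hy).2), hleaf, sum_image]
      · rw [← add_sum_erase univ _ (mem_univ i), hu.u0, zero_add]
        refine sum_congr rfl fun p hp => ?_
        exact h.uf u (mem_erase.1 hp).1.symm
      · intro p hp q hq hpq
        have hip := (mem_erase.1 (mem_coe.1 hp)).1.symm
        have hiq := (mem_erase.1 (mem_coe.1 hq)).1.symm
        have h3 : z p ∈ nz src dst Z (lf i p) := by rw [h.mem_lf hip]; exact Or.inr rfl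
        change lf i p = lf i q at hpq
        rw [hpq, h.mem_lf hiq] at h3
        rcases h3 with h3 | h3
        · exact absurd h3.symm hip
        · exact h3
    -- the centres
    have s2 : ∑ y ∈ (nx src dst Z (z i)).filter (fun y => ¬ (nx src dst Z y).card = 1),
        wf src dst Z z lf u (z i) y = ∑ p, u i p := by
      rw [sum_congr rfl fun y hy => (hval y (mem_filter.1 hy).1).trans
        (if_neg (mem_filter.1 hy).2)]
      have hce : ∀ y ∈ (nx src dst Z (z i)).filter (fun y => ¬ (nx src dst Z y).card = 1),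
          Ce src dst Z y := by
        intro y hy
        rw [mem_filter] at hy
        rcases h.cfg.lc (nx_nis hy.1) (mem_nx.1 hy.1).2 with h2 | h2
        · exact absurd h2.2.2 hy.2
        · exact h2
      obtain ⟨j, k, hjk, rfl⟩ := (col_props col h.col1 h.col2 h.col3).2 i
      have hx := (h.lfp j k hjk).1
      have hp := h.ptp _ hx
      -- centres at `z i` are the centre of the class
      have hone : ∀ y ∈ (nx src dst Z (z (col j k))).filter
          (fun y => ¬ (nx src dst Z y).card = 1), nx src dst Z (lf j k) = {y} := by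
        intro y hy
        obtain ⟨j', k', hjk', h2, h3, h4, -, -⟩ := hu.cen h (hce y hy)
        rw [mem_filter] at hy
        have h5 : z (col j k) ∈ nz src dst Z y := mem_nz.2 ⟨nbr_symm (mem_nx.1 hy.1).1, hv⟩
        rw [h4, mem_singleton] at h5
        have h6 := h.zi h5
        have h7 : lf j k ∈ nx src dst Z y := by
          rw [h2, mem_insert, mem_singleton]
          exact h.same hjk' hjk h6.symm
        exact ((h.cfg.ce1 (hce y (mem_filter.2 hy))).2 _ h7).2
      rcases hp.2.2 with ⟨h2, h3⟩ | ⟨c, hc, h2, h3, h4⟩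
      · rw [(hu.u3 j k hjk).2 h2]
        have : (nx src dst Z (z (col j k))).filter (fun y => ¬ (nx src dst Z y).card = 1) = ∅ := by
          rw [eq_empty_iff_forall_notMem]
          intro y hy
          have h5 := hone y hy
          rw [h2, singleton_inj] at h5
          exact not_both hp.1 (h5 ▸ hce y hy)
        rw [this, sum_empty]
      · obtain ⟨j', k', hjk', h5, h6, h7, h8, -⟩ := hu.cen h hc
        have h9 : lf j k ∈ nx src dst Z c := by rw [h4]; simp
        have h10 : col j k = col j' k' := by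
          rw [h5, mem_insert, mem_singleton] at h9
          have h11 := h.colp j k hjk
          rcases h9 with h9 | h9
          · rw [h9] at h11
            exact h.col_eq hjk' h11.1 h11.2
          · rw [h9, h.pt_pt (h.lfp j' k' hjk').1] at h11
            exact h.col_eq hjk' h11.2 h11.1
        have : (nx src dst Z (z (col j k))).filter (fun y => ¬ (nx src dst Z y).card = 1) = {c} := by
          ext y
          rw [mem_singleton]
          constructor
          · intro hy
            have h11 := hone y hy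
            rw [h2, singleton_inj] at h11
            exact h11.symm
          · rintro rfl
            rw [mem_filter, mem_nx]
            have h11 : z (col j k) ∈ nz src dst Z y := by rw [h7, h10]; simp
            exact ⟨⟨nbr_symm (mem_nz.1 h11).1, hc.2.1⟩, by rw [hc.2.2]; omega⟩
        rw [this, sum_singleton, h8, h10]
    rw [s1, s2]
    exact kself _
  · by_cases hn : Nis src dst v
    · have hz1 : ∀ y ∈ nz src dst Z v, wf src dst Z z lf u v y =
          if (nx src dst Z v).card = 1 then Uf z lf u v y else Ff src dst Z z lf u v := by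
        intro y hy
        unfold wf
        rw [if_neg (not_not.2 (mem_nz.1 hy).1), if_neg hv, if_pos (mem_nz.1 hy).2]
      have hx1 : ∀ y ∈ nx src dst Z v, wf src dst Z z lf u v y =
          if (nx src dst Z v).card = 1 then Df src dst Z z lf u v else Df src dst Z z lf u y := by
        intro y hy
        unfold wf
        rw [if_neg (not_not.2 (mem_nx.1 hy).1), if_neg hv, if_neg (mem_nx.1 hy).2]
      rw [sum_congr rfl hz1, sum_congr rfl hx1]
      rcases h.cfg.lc hn hv with lv | cv
      · simp only [if_pos lv.2.2]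
        rw [sum_const, lv.2.2, one_smul]
        exact kself _
      · have h2 : ¬ (nx src dst Z v).card = 1 := by rw [cv.2.2]; omega
        simp only [if_neg h2]
        rw [sum_const, (h.cfg.ce1 cv).1, one_smul]
        exact kself _
    · have h2 : nbr src dst v = ∅ := by
        rw [eq_empty_iff_forall_notMem]
        intro y hy
        exact hn (nbr_nis (nbr_symm hy))
      unfold nz nx
      rw [h2, empty_inter, empty_sdiff, sum_empty, add_zero]

/-- **No such configuration.** -/
theorem Cfg.false (h : Cfg src dst Z) : False := by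
  classical
  obtain ⟨z, lf, pt, col, hi⟩ := h.idx
  obtain ⟨u, hu⟩ := hi.val
  refine h.min.nf ⟨fun e => if src e = dst e then (1, 0) else
    wf src dst Z z lf u (src e) (dst e), fun v => ?_, fun e he => absurd he (notMem_empty _),
    fun e _ _ => ?_⟩
  · rw [bd_congr src dst _ (fun e => wf src dst Z z lf u (src e) (dst e))
      (fun e he => if_neg he) v, bd_sym h.min (wf src dst Z z lf u) (hu.symm hi)
      (fun x y hxy hA => ?_) (fun x => ?_) v]
    · exact hu.sum0 hi v
    · unfold wf
      rw [if_pos]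
      intro h'
      exact hA (mem_nbr.1 h').2
    · unfold wf
      rw [if_pos]
      intro h'
      exact (mem_nbr.1 h').1 rfl
  · change (if src e = dst e then _ else _) ≠ _
    by_cases he : src e = dst e
    · rw [if_pos he]; decide
    · rw [if_neg he]
      exact hu.nonzero hi (mem_nbr.2 ⟨Ne.symm he, e, Or.inl ⟨rfl, rfl⟩⟩)

end Pool.T9h45.TD
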