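import Pool.Agent.T9h45.TD.Part

set_option autoImplicit false
set_option linter.unusedSectionVars false

/-! # Five vertices whose deletion leaves a star forest: indices -/

namespace Pool.T9h45.TD

open Finset Pool.Agent.TH462.T4 Pool.Agent.TH676.T4 Pool.Agent.TH497.T4 Pool.Agent.N399.TB

variable {V E : Type} [Fintype V] [DecidableEq V] [Fintype E] [DecidableEq E]
variable {src dst : E → V} {Z : Finset V}

/-- the indices -/
structure Idx (src dst : E → V) (Z : Finset V) (z : Fin 5 → V) (lf : Fin 5 → Fin 5 → V)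
    (pt : V → V) (col : Fin 5 → Fin 5 → Fin 5) : Prop where
  cfg : Cfg src dst Z
  zi : Function.Injective z
  zZ : ∀ v, v ∈ Z ↔ ∃ i, v = z i
  lfp : ∀ j k, j ≠ k → Lf src dst Z (lf j k) ∧ nz src dst Z (lf j k) = {z j, z k}
  sur : ∀ x, Lf src dst Z x → ∃ j k, j ≠ k ∧ x = lf j k
  ptp : ∀ x, Lf src dst Z x → Lf src dst Z (pt x) ∧ Pn src dst Z x (pt x)
  colp : ∀ j k, j ≠ k → z (col j k) ∉ nz src dst Z (lf j k) ∧
    z (col j k) ∉ nz src dst Z (pt (lf j k))

theorem Cfg.idx (h : Cfg src dst Z) : ∃ z lf pt col, Idx src dst Z z lf pt col := by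
  classical
  obtain ⟨φ⟩ : Nonempty (Fin 5 ≃ Z) := ⟨(Z.equivFinOfCardEq h.card).symm⟩
  obtain ⟨z, hz⟩ : ∃ z : Fin 5 → V, z = fun i => (φ i : V) := ⟨_, rfl⟩
  have zi : Function.Injective z := by
    intro i j hij
    rw [hz] at hij
    exact φ.injective (Subtype.ext hij)
  have zZ : ∀ v, v ∈ Z ↔ ∃ i, v = z i := by
    intro v
    rw [hz]
    constructor
    · intro hv
      exact ⟨φ.symm ⟨v, hv⟩, by simp⟩
    · rintro ⟨i, rfl⟩
      exact (φ i).2
  have h1 : ∀ j k, ∃ x, j ≠ k → Lf src dst Z x ∧ nz src dst Z x = {z j, z k} := by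
    intro j k
    by_cases hjk : j = k
    · exact ⟨z j, fun h => absurd hjk h⟩
    · obtain ⟨x, a, b, c, d⟩ := h.all (z j) ((zZ _).2 ⟨j, rfl⟩) (z k) ((zZ _).2 ⟨k, rfl⟩)
        (fun h => hjk (zi h))
      exact ⟨x, fun _ => ⟨⟨a, b, c⟩, d⟩⟩
  choose lf hlf using h1
  have sur : ∀ x, Lf src dst Z x → ∃ j k, j ≠ k ∧ x = lf j k := by
    intro x hx
    obtain ⟨p, q, hpq, hx2⟩ := card_eq_two.1 (h.lf2 hx)
    have hp : p ∈ Z := by
      have : p ∈ nz src dst Z x := by rw [hx2]; simp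
      exact (mem_nz.1 this).2
    have hq : q ∈ Z := by
      have : q ∈ nz src dst Z x := by rw [hx2]; simp
      exact (mem_nz.1 this).2
    obtain ⟨j, rfl⟩ := (zZ p).1 hp
    obtain ⟨k, rfl⟩ := (zZ q).1 hq
    have hjk : j ≠ k := fun h => hpq (by rw [h])
    exact ⟨j, k, hjk, h.lf_uniq hx (by rw [hx2, (hlf j k hjk).2])⟩
  have h2 : ∀ x, ∃ y, Lf src dst Z x → Lf src dst Z y ∧ Pn src dst Z x y := by
    intro x
    by_cases hx : Lf src dst Z x
    · obtain ⟨y, hy⟩ := h.partner hx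
      exact ⟨y, fun _ => hy⟩
    · exact ⟨x, fun h => absurd h hx⟩
  choose pt hpt using h2
  have h3 : ∀ j k, ∃ v, j ≠ k → z v ∉ nz src dst Z (lf j k) ∧ z v ∉ nz src dst Z (pt (lf j k)) := by
    intro j k
    by_cases hjk : j = k
    · exact ⟨j, fun h => absurd hjk h⟩
    · have h4 := (hlf j k hjk).1
      have h5 := hpt _ h4
      obtain ⟨p, hp, h6, h7, -⟩ := h.miss h4 h5.1 h5.2
      obtain ⟨v, rfl⟩ := (zZ p).1 hp
      exact ⟨v, fun _ => ⟨h6, h7⟩⟩
  choose col hcol using h3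
  exact ⟨z, lf, pt, col, h, zi, zZ, hlf, sur, hpt, hcol⟩

variable {z : Fin 5 → V} {lf : Fin 5 → Fin 5 → V} {pt : V → V} {col : Fin 5 → Fin 5 → Fin 5}

theorem Idx.zmem (h : Idx src dst Z z lf pt col) (i : Fin 5) : z i ∈ Z := (h.zZ _).2 ⟨i, rfl⟩

theorem Idx.mem_lf (h : Idx src dst Z z lf pt col) {j k : Fin 5} (hjk : j ≠ k) (i : Fin 5) :
    z i ∈ nz src dst Z (lf j k) ↔ i = j ∨ i = k := by
  rw [(h.lfp j k hjk).2, mem_insert, mem_singleton]
  exact ⟨fun h' => h'.imp (fun a => h.zi a) (fun a => h.zi a),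
    fun h' => h'.imp (fun a => by rw [a]) (fun a => by rw [a])⟩

theorem Idx.lf_symm (h : Idx src dst Z z lf pt col) {j k : Fin 5} (hjk : j ≠ k) :
    lf j k = lf k j := by
  apply h.cfg.lf_uniq (h.lfp j k hjk).1
  rw [(h.lfp j k hjk).2, (h.lfp k j hjk.symm).2, pair_comm]

theorem Idx.pt_pt (h : Idx src dst Z z lf pt col) {x : V} (hx : Lf src dst Z x) :
    pt (pt x) = x := by
  have h1 := h.ptp x hx
  have h2 := h.ptp _ h1.1
  exact (h1.2.symm.uniq h2.2).symm

theorem Idx.col_eq (h : Idx src dst Z z lf pt col) {j k v : Fin 5} (hjk : j ≠ k)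
    (h1 : z v ∉ nz src dst Z (lf j k)) (h2 : z v ∉ nz src dst Z (pt (lf j k))) : v = col j k := by
  have h3 := (h.lfp j k hjk).1
  have h4 := h.ptp _ h3
  obtain ⟨p, hp, -, -, h5⟩ := h.cfg.miss h3 h4.1 h4.2
  have h6 := h.colp j k hjk
  exact h.zi ((h5 _ (h.zmem v) h1 h2).trans (h5 _ (h.zmem _) h6.1 h6.2).symm)

theorem Idx.col1 (h : Idx src dst Z z lf pt col) (j k : Fin 5) : col j k = col k j := by
  by_cases hjk : j = k
  · rw [hjk]
  · have h1 := h.colp j k hjk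
    rw [h.lf_symm hjk] at h1
    exact h.col_eq (Ne.symm hjk) h1.1 h1.2

theorem Idx.col2 (h : Idx src dst Z z lf pt col) (j k : Fin 5) (hjk : j ≠ k) : col j k ≠ j := by
  intro h1
  have h2 := (h.colp j k hjk).1
  rw [h.mem_lf hjk, h1] at h2
  exact h2 (Or.inl rfl)

/-- the partner -/
theorem Idx.pt_eq (h : Idx src dst Z z lf pt col) {j k l m : Fin 5} (hjk : j ≠ k) (hjl : j ≠ l)
    (hjm : j ≠ m) (hkl : k ≠ l) (hkm : k ≠ m) (hlm : l ≠ m) (h1 : col j k ≠ l)
    (h2 : col j k ≠ m) : pt (lf j k) = lf l m := by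
  have h3 := (h.lfp j k hjk).1
  have h4 := h.ptp _ h3
  apply h.cfg.lf_uniq h4.1
  rw [(h.lfp l m hlm).2]
  have hd := h.cfg.pn_disj h4.2
  have hsub : nz src dst Z (pt (lf j k)) ⊆ {z l, z m} := by
    intro p hp
    obtain ⟨i, rfl⟩ := (h.zZ p).1 (mem_nz.1 hp).2
    have hi : z i ∉ nz src dst Z (lf j k) := fun h' => disjoint_left.1 hd h' hp
    rw [h.mem_lf hjk, not_or] at hi
    have hic : i ≠ col j k := by
      rintro rfl
      exact (h.colp j k hjk).2 hp
    have hc2 : col j k ≠ j := h.col2 j k hjk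
    have hc3 : col j k ≠ k := by rw [h.col1]; exact h.col2 k j hjk.symm
    rw [mem_insert, mem_singleton]
    rcases allfive j k l m (col j k) hjk hjl hkl hjm hkm hlm hc2.symm hc3.symm h1.symm h2.symm i
      with a | a | a | a | a
    · exact absurd a hi.1
    · exact absurd a hi.2
    · exact Or.inl (by rw [a])
    · exact Or.inr (by rw [a])
    · exact absurd a hic
  exact eq_of_subset_of_card_le hsub (by
    rw [h.cfg.lf2 h4.1, card_pair (fun h' => hlm (h.zi h'))])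

theorem Idx.col3 (h : Idx src dst Z z lf pt col) (j k l m v : Fin 5) (hjk : j ≠ k) (hlm : l ≠ m)
    (hv : v ∉ [j, k, l, m]) (hj : j ∉ [l, m]) (hk : k ∉ [l, m]) (hc : col j k = v) :
    col l m = v := by
  simp only [List.mem_cons, List.not_mem_nil, or_false, not_or] at hv hj hk
  have h1 := h.pt_eq hjk hj.1 hj.2 hk.1 hk.2 hlm (by rw [hc]; exact hv.2.2.1)
    (by rw [hc]; exact hv.2.2.2)
  symm
  apply h.col_eq hlm
  · rw [← h1, ← hc]
    exact (h.colp j k hjk).2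
  · rw [← h1, h.pt_pt (h.lfp j k hjk).1, ← hc]
    exact (h.colp j k hjk).1

theorem Idx.same (h : Idx src dst Z z lf pt col) {j k j' k' : Fin 5} (hjk : j ≠ k)
    (hjk' : j' ≠ k') (hc : col j k = col j' k') : lf j' k' = lf j k ∨ lf j' k' = pt (lf j k) := by
  have hp := (col_props col h.col1 h.col2 h.col3).1
  by_cases h1 : j' = j
  · subst h1
    by_cases h2 : k' = k
    · exact Or.inl (by rw [h2])
    · exact absurd hc (hp j' k k' hjk hjk' (Ne.symm h2))
  by_cases h2 : j' = k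
  · subst h2
    by_cases h3 : k' = j
    · left; rw [h3]; exact h.lf_symm hjk.symm
    · rw [h.col1 j j'] at hc
      exact absurd hc (hp j' j k' hjk.symm hjk' (Ne.symm h3))
  by_cases h3 : k' = j
  · subst h3
    rw [h.col1 j' k'] at hc
    exact absurd hc (hp k' k j' hjk hjk'.symm (Ne.symm h2))
  by_cases h4 : k' = k
  · subst h4
    rw [h.col1 j k', h.col1 j' k'] at hc
    exact absurd hc (hp k' j j' hjk.symm hjk'.symm (Ne.symm h1))
  right
  have c1 : col j k ≠ j' := by rw [hc]; exact h.col2 _ _ hjk'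
  have c2 : col j k ≠ k' := by rw [hc, h.col1]; exact h.col2 _ _ hjk'.symm
  exact (h.pt_eq hjk (Ne.symm h1) (Ne.symm h3) (Ne.symm h2) (Ne.symm h4) hjk' c1 c2).symm

end Pool.T9h45.TD
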