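import Mathlib
import Pool.Agent.N399.TB.Sep4
import Pool.Agent.N399.TB.Many

set_option autoImplicit false
set_option linter.unusedSectionVars false

/-! # Neighbours in a minimal counterexample -/

namespace Pool.T9h45.TD

open Finset Pool.Agent.TH462.T4 Pool.Agent.TH676.T4 Pool.Agent.TH497.T4 Pool.Agent.N399.TB

variable {V E : Type} [Fintype V] [DecidableEq V] [Fintype E] [DecidableEq E]

/-- adjacent vertices -/
def A (src dst : E → V) (x y : V) : Prop := ∃ e, JV src dst e x y

theorem A.symm {src dst : E → V} {x y : V} (h : A src dst x y) : A src dst y x := by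
  obtain ⟨e, h | h⟩ := h
  · exact ⟨e, Or.inr h⟩
  · exact ⟨e, Or.inl h⟩

theorem smp1 {src dst : E → V} (hM : MinCx src dst) {e e' : E} {x y : V} (hxy : x ≠ y)
    (h : JV src dst e x y) (h' : JV src dst e' x y) : e = e' :=
  Pool.Agent.TH169.P5.smp V E src dst hM e e' x y hxy h h'

theorem jv_symm {src dst : E → V} {e : E} {x y : V} (h : JV src dst e x y) : JV src dst e y x :=
  h.elim Or.inr Or.inl

open Classical in
/-- the neighbours of a vertex -/
noncomputable def nbr (src dst : E → V) (v : V) : Finset V :=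
  univ.filter (fun w => w ≠ v ∧ A src dst v w)

theorem mem_nbr {src dst : E → V} {v w : V} : w ∈ nbr src dst v ↔ w ≠ v ∧ A src dst v w := by
  simp [nbr]

theorem kself : ∀ x : ZMod 2 × ZMod 2, x + x = 0 := by decide

/-- boundaries of symmetric functions -/
theorem bd_sym {src dst : E → V} (hM : MinCx src dst) (w : V → V → ZMod 2 × ZMod 2)
    (h1 : ∀ x y, w x y = w y x) (h3 : ∀ x y, x ≠ y → ¬ A src dst x y → w x y = 0)
    (h2 : ∀ x, w x x = 0) (v : V) : bd src dst (fun e => w (src e) (dst e)) v = ∑ y, w v y := by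
  classical
  have key : ∀ y, w v y = ∑ e, if JV src dst e v y ∧ v ≠ y then w v y else 0 := by
    intro y
    by_cases hvy : v = y
    · subst hvy
      rw [h2]
      simp
    · by_cases hA : A src dst v y
      · obtain ⟨e, he⟩ := hA
        rw [sum_eq_single e]
        · rw [if_pos ⟨he, hvy⟩]
        · intro e' _ hne
          rw [if_neg]
          rintro ⟨he', _⟩
          exact hne (smp1 hM hvy he' he)
        · intro h; exact absurd (mem_univ _) h
      · rw [h3 v y hvy hA]
        simp
  rw [sum_congr rfl fun y _ => key y, sum_comm]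
  unfold bd
  refine sum_congr rfl fun e _ => ?_
  change (if src e = v then w (src e) (dst e) else 0) +
    (if dst e = v then w (src e) (dst e) else 0) = _
  have hs : ∀ z, (∀ y, (JV src dst e v y ∧ v ≠ y) ↔ (y = z ∧ v ≠ z)) →
      (∑ y, if JV src dst e v y ∧ v ≠ y then w v y else 0) = if v ≠ z then w v z else 0 := by
    intro z hz
    rw [sum_eq_single z]
    · by_cases h : v = z
      · rw [if_neg (fun k => k.2 h), if_neg (fun k => k h)]
      · rw [if_pos ((hz z).2 ⟨rfl, h⟩), if_pos h]
    · intro y _ hy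
      rw [if_neg]
      intro k
      exact hy ((hz y).1 k).1
    · intro h; exact absurd (mem_univ _) h
  by_cases e1 : src e = v
  · rw [hs (dst e) (fun y => by
      constructor
      · rintro ⟨⟨k1, k2⟩ | ⟨k1, k2⟩, k3⟩
        · exact ⟨k2.symm, fun k => k3 (k.trans k2)⟩
        · exact absurd (e1.symm.trans k1) k3
      · rintro ⟨rfl, k⟩
        exact ⟨Or.inl ⟨e1, rfl⟩, k⟩)]
    rw [if_pos e1, e1]
    by_cases e2 : dst e = v
    · rw [if_pos e2, e2, h2]; simp
    · rw [if_neg e2, if_pos (Ne.symm e2), add_zero]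
  · rw [if_neg e1, zero_add]
    by_cases e2 : dst e = v
    · rw [hs (src e) (fun y => by
        constructor
        · rintro ⟨⟨k1, k2⟩ | ⟨k1, k2⟩, k3⟩
          · exact absurd k1 e1
          · exact ⟨k1.symm, fun k => k3 (k.trans k1)⟩
        · rintro ⟨rfl, k⟩
          exact ⟨Or.inr ⟨rfl, e2⟩, k⟩)]
      rw [if_pos e2, if_pos (Ne.symm e1), h1, e2]
    · rw [if_neg e2]
      symm
      refine sum_eq_zero fun y _ => if_neg ?_
      rintro ⟨⟨k1, _⟩ | ⟨_, k2⟩, _⟩
      · exact e1 k1
      · exact e2 k2

theorem nbr_nis {src dst : E → V} {v w : V} (h : w ∈ nbr src dst v) : Nis src dst w := by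
  rw [mem_nbr] at h
  obtain ⟨h1, e, he⟩ := h
  exact Pool.Agent.TH169.P5.JV.nisR he (Ne.symm h1)

theorem nbr_symm {src dst : E → V} {v w : V} (h : w ∈ nbr src dst v) : v ∈ nbr src dst w := by
  rw [mem_nbr] at h ⊢
  exact ⟨h.1.symm, h.2.symm⟩

theorem nbr_card {src dst : E → V} (hM : MinCx src dst) (v : V) :
    (nbr src dst v).card = (crs src dst {v}).card := by
  symm
  refine card_bij (fun e _ => if src e = v then dst e else src e) (fun e he => ?_)
    (fun e he e' he' h => ?_) (fun w hw => ?_)
  · rw [mem_crs, mem_singleton, mem_singleton] at he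
    rw [mem_nbr]
    by_cases h1 : src e = v
    · rw [if_pos h1]
      have h2 : dst e ≠ v := fun h => he ⟨fun _ => h, fun _ => h1⟩
      exact ⟨h2, e, Or.inl ⟨h1, rfl⟩⟩
    · rw [if_neg h1]
      have h2 : dst e = v := by tauto
      exact ⟨h1, e, Or.inr ⟨rfl, h2⟩⟩
  · have key : ∀ e, e ∈ crs src dst {v} → (if src e = v then dst e else src e) ≠ v ∧
        JV src dst e v (if src e = v then dst e else src e) := by
      intro e he
      rw [mem_crs, mem_singleton, mem_singleton] at he
      by_cases h1 : src e = v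
      · rw [if_pos h1]
        exact ⟨fun h => he ⟨fun _ => h, fun _ => h1⟩, Or.inl ⟨h1, rfl⟩⟩
      · rw [if_neg h1]
        exact ⟨h1, Or.inr ⟨rfl, by tauto⟩⟩
    have k1 := key e he
    have k2 := key e' he'
    change (if src e = v then dst e else src e) = (if src e' = v then dst e' else src e') at h
    rw [← h] at k2
    exact smp1 hM k1.1.symm k1.2 k2.2
  · rw [mem_nbr] at hw
    obtain ⟨hwv, e, he⟩ := hw
    rcases he with ⟨h1, h2⟩ | ⟨h1, h2⟩
    · refine ⟨e, ?_, ?_⟩
      · rw [mem_crs, mem_singleton, mem_singleton, h1, h2]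
        exact fun h => hwv (h.1 rfl)
      · change (if src e = v then dst e else src e) = w
        rw [if_pos h1, h2]
    · refine ⟨e, ?_, ?_⟩
      · rw [mem_crs, mem_singleton, mem_singleton, h1, h2]
        exact fun h => hwv (h.2 rfl)
      · change (if src e = v then dst e else src e) = w
        rw [if_neg (by rw [h1]; exact hwv), h1]

theorem nbr_three {src dst : E → V} (hM : MinCx src dst) {v y : V} (hv : Nis src dst v)
    (hy : Nis src dst y) (hyv : y ≠ v) : 3 ≤ (nbr src dst v).card := by
  rw [nbr_card hM]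
  exact cut3 hM (mem_singleton_self v) (by simpa using hyv) hv hy

/-- two vertices have at most one common neighbour -/
theorem nbr_common {src dst : E → V} (hM : MinCx src dst) {x y : V} (hxy : x ≠ y) :
    (nbr src dst x ∩ nbr src dst y).card ≤ 1 := by
  by_contra h
  push Not at h
  obtain ⟨p, hp, q, hq, hpq⟩ := one_lt_card.1 h
  rw [mem_inter, mem_nbr, mem_nbr] at hp hq
  exact Pool.Agent.TH169.P5.quad V E src dst hM x p y q hp.1.1.symm hxy hq.1.1.symm hp.2.1 hpq
    hq.2.1.symm hp.1.2 hp.2.2.symm hq.2.2 hq.1.2.symm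

/-- adjacent vertices have no common neighbour -/
theorem nbr_disj {src dst : E → V} (hM : MinCx src dst) {x y : V} (hxy : y ∈ nbr src dst x) :
    Disjoint (nbr src dst x) (nbr src dst y) := by
  rw [disjoint_left]
  intro p hp hq
  rw [mem_nbr] at hxy hp hq
  exact Pool.Agent.TH169.P5.tri V E src dst hM x y p hxy.1.symm hp.1.symm hq.1.symm hxy.2 hq.2
    hp.2.symm

end Pool.T9h45.TD
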