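import Pool.Agent.T9h45.TD.Star

set_option autoImplicit false
set_option linter.unusedSectionVars false

/-! # Five vertices whose deletion leaves a star forest: partners -/

namespace Pool.T9h45.TD

open Finset Pool.Agent.TH462.T4 Pool.Agent.TH676.T4 Pool.Agent.TH497.T4 Pool.Agent.N399.TB

variable {V E : Type} [Fintype V] [DecidableEq V] [Fintype E] [DecidableEq E]
variable {src dst : E → V} {Z : Finset V}

/-- leaves -/
def Lf (src dst : E → V) (Z : Finset V) (x : V) : Prop :=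
  Nis src dst x ∧ x ∉ Z ∧ (nx src dst Z x).card = 1

/-- centres -/
def Ce (src dst : E → V) (Z : Finset V) (x : V) : Prop :=
  Nis src dst x ∧ x ∉ Z ∧ (nx src dst Z x).card = 2

theorem nx_symm {x y : V} (hx : x ∉ Z) (hy : y ∈ nx src dst Z x) : x ∈ nx src dst Z y := by
  rw [mem_nx] at hy ⊢
  exact ⟨nbr_symm hy.1, hx⟩

theorem nx_ne {x y : V} (hy : y ∈ nx src dst Z x) : y ≠ x := (mem_nbr.1 (mem_nx.1 hy).1).1

theorem nx_nis {x y : V} (hy : y ∈ nx src dst Z x) : Nis src dst y := nbr_nis (mem_nx.1 hy).1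

theorem Cfg.lc (h : Cfg src dst Z) {x : V} (hx : Nis src dst x) (hxZ : x ∉ Z) :
    Lf src dst Z x ∨ Ce src dst Z x := by
  rcases h.out x hx hxZ with h1 | h1
  · exact Or.inl ⟨hx, hxZ, h1.1⟩
  · exact Or.inr ⟨hx, hxZ, h1.1⟩

theorem Cfg.lf2 (h : Cfg src dst Z) {x : V} (hx : Lf src dst Z x) :
    (nz src dst Z x).card = 2 := by
  rcases h.out x hx.1 hx.2.1 with h1 | h1
  · exact h1.2
  · have := hx.2.2
    omega

theorem Cfg.ce1 (h : Cfg src dst Z) {x : V} (hx : Ce src dst Z x) :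
    (nz src dst Z x).card = 1 ∧ ∀ y ∈ nx src dst Z x, Lf src dst Z y ∧ nx src dst Z y = {x} := by
  rcases h.out x hx.1 hx.2.1 with h1 | h1
  · have := hx.2.2
    omega
  · refine ⟨h1.2.1, fun y hy => ⟨⟨nx_nis hy, (mem_nx.1 hy).2, ?_⟩, h1.2.2 y hy⟩⟩
    rw [h1.2.2 y hy, card_singleton]

theorem not_both {x : V} (h1 : Lf src dst Z x) (h2 : Ce src dst Z x) : False := by
  have := h1.2.2
  have := h2.2.2
  omega

/-- partners -/
def Pn (src dst : E → V) (Z : Finset V) (x y : V) : Prop :=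
  x ≠ y ∧ ((nx src dst Z x = {y} ∧ nx src dst Z y = {x}) ∨
    ∃ c, Ce src dst Z c ∧ nx src dst Z x = {c} ∧ nx src dst Z y = {c} ∧ nx src dst Z c = {x, y})

theorem Pn.symm {x y : V} (h : Pn src dst Z x y) : Pn src dst Z y x := by
  refine ⟨h.1.symm, ?_⟩
  rcases h.2 with ⟨h1, h2⟩ | ⟨c, hc, h1, h2, h3⟩
  · exact Or.inl ⟨h2, h1⟩
  · exact Or.inr ⟨c, hc, h2, h1, by rw [h3, pair_comm]⟩

theorem Pn.uniq {x y y' : V} (h : Pn src dst Z x y) (h' : Pn src dst Z x y') : y = y' := by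
  rcases h.2 with ⟨h1, h2⟩ | ⟨c, hc, h1, h2, h3⟩ <;>
    rcases h'.2 with ⟨h4, h5⟩ | ⟨c', hc', h4, h5, h6⟩
  · rw [h1, singleton_inj] at h4
    exact h4
  · exfalso
    rw [h1, singleton_inj] at h4
    have := hc'.2.2
    rw [← h4, h2, card_singleton] at this
    omega
  · exfalso
    rw [h1, singleton_inj] at h4
    have := hc.2.2
    rw [h4, h5, card_singleton] at this
    omega
  · rw [h1, singleton_inj] at h4
    rw [← h4, h3] at h6
    have h7 : y' ∈ ({x, y} : Finset V) := by rw [h6]; simp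
    rw [mem_insert, mem_singleton] at h7
    rcases h7 with h7 | h7
    · exact absurd h7.symm h'.1
    · exact h7.symm

theorem Cfg.pn_disj (h : Cfg src dst Z) {x y : V} (hp : Pn src dst Z x y) :
    Disjoint (nz src dst Z x) (nz src dst Z y) := by
  rcases hp.2 with ⟨h1, h2⟩ | ⟨c, hc, h1, h2, h3⟩
  · have : y ∈ nx src dst Z x := by rw [h1]; simp
    exact nz_disj' h.min (mem_nx.1 this).1
  · have k1 : c ∈ nx src dst Z x := by rw [h1]; simp
    have k2 : c ∈ nx src dst Z y := by rw [h2]; simp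
    exact nz_disj h.min hp.1 hc.2.1 (mem_nx.1 k1).1 (mem_nx.1 k2).1

theorem Cfg.partner (h : Cfg src dst Z) {x : V} (hx : Lf src dst Z x) :
    ∃ y, Lf src dst Z y ∧ Pn src dst Z x y := by
  obtain ⟨t, ht⟩ := card_eq_one.1 hx.2.2
  have htx : t ∈ nx src dst Z x := by rw [ht]; simp
  have hxt := nx_symm hx.2.1 htx
  have htZ := (mem_nx.1 htx).2
  rcases h.lc (nx_nis htx) htZ with h1 | h1
  · obtain ⟨s, hs⟩ := card_eq_one.1 h1.2.2
    have : s = x := by
      rw [hs, mem_singleton] at hxt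
      exact hxt.symm
    subst this
    exact ⟨t, h1, (nx_ne htx).symm, Or.inl ⟨ht, hs⟩⟩
  · obtain ⟨a, b, hab, hc⟩ := card_eq_two.1 h1.2.2
    have key : ∀ a b, a ≠ b → nx src dst Z t = {a, b} → x = a →
        ∃ y, Lf src dst Z y ∧ Pn src dst Z x y := by
      rintro a b hab hc rfl
      have hb : b ∈ nx src dst Z t := by rw [hc]; simp
      have h2 := (h.ce1 h1).2 b hb
      exact ⟨b, h2.1, hab, Or.inr ⟨t, h1, ht, h2.2, hc⟩⟩
    rw [hc, mem_insert, mem_singleton] at hxt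
    rcases hxt with h2 | h2
    · exact key a b hab hc h2
    · exact key b a hab.symm (by rw [hc, pair_comm]) h2

theorem Cfg.lf_uniq (h : Cfg src dst Z) {x y : V} (hx : Lf src dst Z x)
    (hxy : nz src dst Z x = nz src dst Z y) : x = y := by
  by_contra hne
  have h1 := nz_pair h.min (Z := Z) hne
  rw [← hxy, inter_self, h.lf2 hx] at h1
  omega

/-- exactly one vertex of `Z` is not covered by a leaf and its partner -/
theorem Cfg.miss (h : Cfg src dst Z) {x y : V} (hx : Lf src dst Z x) (hy : Lf src dst Z y)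
    (hp : Pn src dst Z x y) : ∃ p ∈ Z, p ∉ nz src dst Z x ∧ p ∉ nz src dst Z y ∧
      ∀ q ∈ Z, q ∉ nz src dst Z x → q ∉ nz src dst Z y → q = p := by
  have h1 := h.lf2 hx
  have h2 := h.lf2 hy
  have h3 : (nz src dst Z x ∪ nz src dst Z y).card = 4 := by
    rw [card_union_of_disjoint (h.pn_disj hp)]; omega
  have h4 : nz src dst Z x ∪ nz src dst Z y ⊆ Z := union_subset inter_subset_right
    inter_subset_right
  have h5 : (Z \ (nz src dst Z x ∪ nz src dst Z y)).card = 1 := by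
    rw [card_sdiff_of_subset h4, h3, h.card]
  obtain ⟨p, hp⟩ := card_eq_one.1 h5
  have key : ∀ q, q ∈ Z \ (nz src dst Z x ∪ nz src dst Z y) ↔ q ∈ Z ∧
      q ∉ nz src dst Z x ∧ q ∉ nz src dst Z y := by
    intro q; rw [mem_sdiff, mem_union]; tauto
  have hpm := (key p).1 (by rw [hp]; simp)
  refine ⟨p, hpm.1, hpm.2.1, hpm.2.2, fun q hq h6 h7 => ?_⟩
  have := (key q).2 ⟨hq, h6, h7⟩
  rw [hp, mem_singleton] at this
  exact this

set_option maxRecDepth 100000 in
theorem allfive : ∀ a b c d e : Fin 5, a ≠ b → a ≠ c → b ≠ c → a ≠ d → b ≠ d → c ≠ d → a ≠ e →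
    b ≠ e → c ≠ e → d ≠ e → ∀ i : Fin 5, i = a ∨ i = b ∨ i = c ∨ i = d ∨ i = e := by
  decide +kernel

end Pool.T9h45.TD
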