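import Pool.Agent.T9h45.TD.Nbr
import Pool.Agent.T9h45.TD.Fin5

set_option autoImplicit false
set_option linter.unusedSectionVars false

/-! # Five vertices whose deletion leaves a star forest: counting -/

namespace Pool.T9h45.TD

open Finset Pool.Agent.TH462.T4 Pool.Agent.TH676.T4 Pool.Agent.TH497.T4 Pool.Agent.N399.TB

variable {V E : Type} [Fintype V] [DecidableEq V] [Fintype E] [DecidableEq E]

/-- the neighbours in `Z` -/
noncomputable def nz (src dst : E → V) (Z : Finset V) (x : V) : Finset V := nbr src dst x ∩ Z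

/-- the neighbours outside `Z` -/
noncomputable def nx (src dst : E → V) (Z : Finset V) (x : V) : Finset V := nbr src dst x \ Z

theorem mem_nz {src dst : E → V} {Z : Finset V} {x y : V} :
    y ∈ nz src dst Z x ↔ y ∈ nbr src dst x ∧ y ∈ Z := by
  unfold nz; exact mem_inter

theorem mem_nx {src dst : E → V} {Z : Finset V} {x y : V} :
    y ∈ nx src dst Z x ↔ y ∈ nbr src dst x ∧ y ∉ Z := by
  unfold nx; exact mem_sdiff

theorem nz_add_nx (src dst : E → V) (Z : Finset V) (x : V) :
    (nz src dst Z x).card + (nx src dst Z x).card = (nbr src dst x).card :=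
  card_inter_add_card_sdiff _ _

theorem nz_disj {src dst : E → V} (hM : MinCx src dst) {Z : Finset V} {x y t : V} (hxy : x ≠ y)
    (ht : t ∉ Z) (hx : t ∈ nbr src dst x) (hy : t ∈ nbr src dst y) :
    Disjoint (nz src dst Z x) (nz src dst Z y) := by
  rw [disjoint_left]
  intro p hp hq
  rw [mem_nz] at hp hq
  have h1 := nbr_common hM hxy
  have h2 : ({p, t} : Finset V) ⊆ nbr src dst x ∩ nbr src dst y := by
    intro w hw
    rw [mem_insert, mem_singleton] at hw
    rw [mem_inter]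
    rcases hw with rfl | rfl
    · exact ⟨hp.1, hq.1⟩
    · exact ⟨hx, hy⟩
  have h3 := card_le_card h2
  have hpt : p ≠ t := fun h => ht (h ▸ hp.2)
  rw [card_pair hpt] at h3
  omega

theorem nz_disj' {src dst : E → V} (hM : MinCx src dst) {Z : Finset V} {x y : V}
    (hxy : y ∈ nbr src dst x) : Disjoint (nz src dst Z x) (nz src dst Z y) :=
  (nbr_disj hM hxy).mono inter_subset_left inter_subset_left

theorem nz_pair {src dst : E → V} (hM : MinCx src dst) {Z : Finset V} {x y : V} (hxy : x ≠ y) :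
    (nz src dst Z x ∩ nz src dst Z y).card ≤ 1 :=
  (card_le_card (inter_subset_inter inter_subset_left inter_subset_left)).trans (nbr_common hM hxy)

theorem three_le {A B C Z : Finset V} (hA : A ⊆ Z) (hB : B ⊆ Z) (hC : C ⊆ Z) (h1 : Disjoint A B)
    (h2 : Disjoint A C) (h3 : Disjoint B C) : A.card + B.card + C.card ≤ Z.card := by
  rw [← card_union_of_disjoint h1, ← card_union_of_disjoint (disjoint_union_left.2 ⟨h2, h3⟩)]
  exact card_le_card (union_subset (union_subset hA hB) hC)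

/-- the hypotheses -/
structure Hyp (src dst : E → V) (N Z : Finset V) : Prop where
  min : MinCx src dst
  nis : ∀ v, v ∈ N ↔ Nis src dst v
  many : 18 ≤ N.card
  five : Z.card ≤ 5
  star : ∀ x, x ∈ N → x ∉ Z → (nx src dst Z x).card ≤ 1 ∨
    ∀ y ∈ nx src dst Z x, nx src dst Z y = {x}

variable {src dst : E → V} {N Z : Finset V}

theorem Hyp.three (h : Hyp src dst N Z) {x : V} (hx : x ∈ N) : 3 ≤ (nbr src dst x).card := by
  have hm := h.many
  obtain ⟨y, hy, hyx⟩ := exists_mem_ne (show 1 < N.card by omega) x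
  exact nbr_three h.min ((h.nis x).1 hx) ((h.nis y).1 hy) hyx

theorem Hyp.nxN (h : Hyp src dst N Z) {x y : V} (hy : y ∈ nx src dst Z x) : y ∈ N ∧ y ∉ Z :=
  ⟨(h.nis y).2 (nbr_nis (mem_nx.1 hy).1), (mem_nx.1 hy).2⟩

theorem Hyp.leaf2 (h : Hyp src dst N Z) {x : V} (hx : x ∈ N)
    (h1 : (nx src dst Z x).card ≤ 1) : 2 ≤ (nz src dst Z x).card := by
  have := h.three hx
  have := nz_add_nx src dst Z x
  omega

/-- the centres -/
theorem Hyp.cen (h : Hyp src dst N Z) {x : V} (hx : x ∈ N) (hxZ : x ∉ Z)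
    (h2 : 2 ≤ (nx src dst Z x).card) :
    (nx src dst Z x).card = 2 ∧ (nz src dst Z x).card = 1 ∧
      ∀ y ∈ nx src dst Z x, (nz src dst Z y).card = 2 ∧ nx src dst Z y = {x} := by
  have hst : ∀ y ∈ nx src dst Z x, nx src dst Z y = {x} := by
    rcases h.star x hx hxZ with h3 | h3
    · omega
    · exact h3
  have hz2 : ∀ y ∈ nx src dst Z x, 2 ≤ (nz src dst Z y).card := by
    intro y hy
    apply h.leaf2 (h.nxN hy).1
    rw [hst y hy, card_singleton]
  have hd : ∀ y ∈ nx src dst Z x, ∀ y' ∈ nx src dst Z x, y ≠ y' →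
      Disjoint (nz src dst Z y) (nz src dst Z y') := by
    intro y hy y' hy' hne
    exact nz_disj h.min hne hxZ (nbr_symm (mem_nx.1 hy).1) (nbr_symm (mem_nx.1 hy').1)
  have hsub : ∀ y, nz src dst Z y ⊆ Z := fun y => inter_subset_right
  have h5 := h.five
  have hle : (nx src dst Z x).card ≤ 2 := by
    by_contra hlt
    obtain ⟨a, ha, b, hb, c, hc, hab, hac, hbc⟩ := two_lt_card.1 (show 2 < (nx src dst Z x).card by omega)
    have := three_le (hsub a) (hsub b) (hsub c) (hd a ha b hb hab) (hd a ha c hc hac)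
      (hd b hb c hc hbc)
    have := hz2 a ha
    have := hz2 b hb
    have := hz2 c hc
    omega
  have heq : (nx src dst Z x).card = 2 := by omega
  obtain ⟨a, b, hab, hxab⟩ := card_eq_two.1 heq
  have ha : a ∈ nx src dst Z x := by rw [hxab]; simp
  have hb : b ∈ nx src dst Z x := by rw [hxab]; simp
  have h6 := three_le (hsub a) (hsub b) (hsub x) (hd a ha b hb hab)
    (nz_disj' h.min (mem_nx.1 ha).1).symm (nz_disj' h.min (mem_nx.1 hb).1).symm
  have h7 := hz2 a ha
  have h8 := hz2 b hb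
  have h9 := h.three hx
  have h10 := nz_add_nx src dst Z x
  refine ⟨heq, by omega, fun y hy => ⟨?_, hst y hy⟩⟩
  rw [hxab, mem_insert, mem_singleton] at hy
  rcases hy with rfl | rfl
  · omega
  · omega

/-- the configuration -/
structure Cfg (src dst : E → V) (Z : Finset V) : Prop where
  min : MinCx src dst
  card : Z.card = 5
  zz : ∀ v ∈ Z, nz src dst Z v = ∅
  out : ∀ x, Nis src dst x → x ∉ Z →
    ((nx src dst Z x).card = 1 ∧ (nz src dst Z x).card = 2) ∨
    ((nx src dst Z x).card = 2 ∧ (nz src dst Z x).card = 1 ∧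
      ∀ y ∈ nx src dst Z x, nx src dst Z y = {x})
  all : ∀ p ∈ Z, ∀ q ∈ Z, p ≠ q → ∃ x, Nis src dst x ∧ x ∉ Z ∧ (nx src dst Z x).card = 1 ∧
    nz src dst Z x = {p, q}

theorem Hyp.cfg (h : Hyp src dst N Z) : Cfg src dst Z := by
  classical
  obtain ⟨L, hL⟩ : ∃ L, L = (N \ Z).filter (fun x => (nx src dst Z x).card ≤ 1) := ⟨_, rfl⟩
  obtain ⟨C, hC⟩ : ∃ C, C = (N \ Z).filter (fun x => ¬ (nx src dst Z x).card ≤ 1) := ⟨_, rfl⟩
  have mL : ∀ x, x ∈ L ↔ (x ∈ N ∧ x ∉ Z) ∧ (nx src dst Z x).card ≤ 1 := by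
    intro x; rw [hL, mem_filter, mem_sdiff]
  have mC : ∀ x, x ∈ C ↔ (x ∈ N ∧ x ∉ Z) ∧ ¬ (nx src dst Z x).card ≤ 1 := by
    intro x; rw [hC, mem_filter, mem_sdiff]
  have hLC : L.card + C.card = (N \ Z).card := by
    rw [hL, hC]; exact card_filter_add_card_filter_not _
  have hNZ : N.card ≤ (N \ Z).card + Z.card := by
    have := card_le_card (show N ⊆ (N \ Z) ∪ Z by
      intro v hv; rw [mem_union, mem_sdiff]; tauto)
    exact this.trans (card_union_le _ _)
  have h18 := h.many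
  have h5 := h.five
  -- centres
  have cC : ∀ c ∈ C, (nx src dst Z c).card = 2 ∧ (nz src dst Z c).card = 1 ∧
      ∀ y ∈ nx src dst Z c, (nz src dst Z y).card = 2 ∧ nx src dst Z y = {c} := by
    intro c hc
    rw [mC] at hc
    exact h.cen hc.1.1 hc.1.2 (by omega)
  -- pairs
  have hpd : ∀ x ∈ L, ∀ y ∈ L, x ≠ y → Disjoint ((nz src dst Z x).powersetCard 2)
      ((nz src dst Z y).powersetCard 2) := by
    intro x _ y _ hxy
    rw [disjoint_left]
    intro s hs hs'
    rw [mem_powersetCard] at hs hs'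
    have h1 := card_le_card (subset_inter hs.1 hs'.1)
    have h2 := nz_pair h.min (Z := Z) hxy
    omega
  have hsum : ∑ x ∈ L, ((nz src dst Z x).powersetCard 2).card ≤ 10 := by
    rw [← card_biUnion hpd]
    have h1 : L.biUnion (fun x => (nz src dst Z x).powersetCard 2) ⊆ Z.powersetCard 2 := by
      intro s hs
      obtain ⟨x, _, hx⟩ := mem_biUnion.1 hs
      rw [mem_powersetCard] at hx ⊢
      exact ⟨hx.1.trans inter_subset_right, hx.2⟩
    refine (card_le_card h1).trans ?_
    rw [card_powersetCard]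
    calc Z.card.choose 2 ≤ Nat.choose 5 2 := Nat.choose_le_choose 2 h5
      _ = 10 := by decide
  obtain ⟨L2, hL2⟩ : ∃ L2, L2 = L.filter (fun x => (nz src dst Z x).card = 2) := ⟨_, rfl⟩
  obtain ⟨L3, hL3⟩ : ∃ L3, L3 = L.filter (fun x => ¬ (nz src dst Z x).card = 2) := ⟨_, rfl⟩
  have mL2 : ∀ x, x ∈ L2 ↔ x ∈ L ∧ (nz src dst Z x).card = 2 := by
    intro x; rw [hL2, mem_filter]
  have h23 : L2.card + L3.card = L.card := by
    rw [hL2, hL3]; exact card_filter_add_card_filter_not _
  have hsum2 : L2.card + 3 * L3.card ≤ 10 := by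
    refine le_trans ?_ hsum
    rw [← sum_filter_add_sum_filter_not L (fun x => (nz src dst Z x).card = 2), ← hL2, ← hL3]
    refine Nat.add_le_add ?_ ?_
    · rw [card_eq_sum_ones]
      refine sum_le_sum fun x hx => ?_
      rw [mL2] at hx
      rw [card_powersetCard, hx.2]
      decide
    · rw [mul_comm, ← smul_eq_mul, ← sum_const]
      refine sum_le_sum fun x hx => ?_
      rw [hL3, mem_filter] at hx
      have h1 := h.leaf2 ((mL x).1 hx.1).1.1 ((mL x).1 hx.1).2
      rw [card_powersetCard]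
      calc 3 = Nat.choose 3 2 := by decide
        _ ≤ _ := Nat.choose_le_choose 2 (by omega)
  -- the leaves of the centres
  obtain ⟨W, hW⟩ : ∃ W, W = C.biUnion (fun c => nx src dst Z c) := ⟨_, rfl⟩
  have hWc : W.card = 2 * C.card := by
    rw [hW, card_biUnion, sum_congr rfl fun c hc => (cC c hc).1, sum_const, smul_eq_mul, mul_comm]
    intro c hc c' hc' hne
    change Disjoint (nx src dst Z c) (nx src dst Z c')
    rw [disjoint_left]
    intro y hy hy'
    have h1 := ((cC c hc).2.2 y hy).2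
    rw [((cC c' hc').2.2 y hy').2, singleton_inj] at h1
    exact hne h1.symm
  have hWL : W ⊆ L2 := by
    intro y hy
    rw [hW, mem_biUnion] at hy
    obtain ⟨c, hc, hy⟩ := hy
    have h1 := (cC c hc).2.2 y hy
    rw [mL2, mL]
    exact ⟨⟨h.nxN hy, by rw [h1.2, card_singleton]⟩, h1.1⟩
  have hWL' := card_le_card hWL
  have c3 : L3.card = 0 := by omega
  have hL3e : L3 = ∅ := card_eq_zero.1 c3
  have hL2L : ∀ x ∈ L, x ∈ L2 := by
    intro x hx
    rw [mL2]
    refine ⟨hx, ?_⟩
    by_contra h1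
    have : x ∈ L3 := by rw [hL3, mem_filter]; exact ⟨hx, h1⟩
    rw [hL3e] at this
    exact notMem_empty _ this
  -- neighbours of the other leaves
  have hone : ∀ x ∈ L2, (nx src dst Z x).card = 1 := by
    intro x hx
    rw [mL2, mL] at hx
    have := h.three hx.1.1.1
    have := nz_add_nx src dst Z x
    have := hx.1.2
    omega
  have hrest : ∀ x ∈ L2, x ∉ W → ∀ t ∈ nx src dst Z x, t ∈ L2 ∧ t ∉ W ∧ t ≠ x := by
    intro x hx hxW t ht
    have htN := h.nxN ht
    have hxt : x ∈ nx src dst Z t := by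
      rw [mem_nx]
      exact ⟨nbr_symm (mem_nx.1 ht).1, ((mL x).1 ((mL2 x).1 hx).1).1.2⟩
    have htC : t ∉ C := fun htC => hxW (by rw [hW, mem_biUnion]; exact ⟨t, htC, hxt⟩)
    have htL : t ∈ L := by
      rw [mL]
      refine ⟨htN, ?_⟩
      by_contra h1
      exact htC ((mC t).2 ⟨htN, h1⟩)
    refine ⟨hL2L t htL, fun htW => ?_, ?_⟩
    · rw [hW, mem_biUnion] at htW
      obtain ⟨c, hc, htc⟩ := htW
      have h1 := ((cC c hc).2.2 t htc).2
      rw [h1, mem_singleton] at hxt
      subst hxt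
      exact ((mC x).1 hc).2 ((mL x).1 ((mL2 x).1 hx).1).2
    · rintro rfl
      exact (mem_nbr.1 (mem_nx.1 ht).1).1 rfl
  have c9 : L2.card ≠ 9 := by
    intro h9
    have h1 : (L2 \ W).card = 1 := by
      rw [card_sdiff_of_subset hWL]
      omega
    obtain ⟨x, hx⟩ := card_eq_one.1 h1
    have hxm : x ∈ L2 ∧ x ∉ W := by
      rw [← mem_sdiff, hx]; simp
    obtain ⟨t, ht⟩ := card_eq_one.1 (hone x hxm.1)
    have h2 := hrest x hxm.1 hxm.2 t (by rw [ht]; simp)
    have h3 : t ∈ L2 \ W := mem_sdiff.2 ⟨h2.1, h2.2.1⟩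
    rw [hx, mem_singleton] at h3
    exact h2.2.2 h3
  have c10 : L2.card = 10 := by omega
  have hLL : L = L2 := by
    apply subset_antisymm hL2L
    intro x hx
    exact ((mL2 x).1 hx).1
  have hsum3 : ∑ x ∈ L, ((nz src dst Z x).powersetCard 2).card = 10 := by
    rw [hLL, sum_congr rfl (fun x hx => by
      rw [card_powersetCard, ((mL2 x).1 hx).2] :
      ∀ x ∈ L2, ((nz src dst Z x).powersetCard 2).card = Nat.choose 2 2), sum_const, c10]
    decide
  have hsub : L.biUnion (fun x => (nz src dst Z x).powersetCard 2) ⊆ Z.powersetCard 2 := by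
    intro s hs
    obtain ⟨x, _, hx⟩ := mem_biUnion.1 hs
    rw [mem_powersetCard] at hx ⊢
    exact ⟨hx.1.trans inter_subset_right, hx.2⟩
  have hZ5 : Z.card = 5 := by
    by_contra hne
    have h1 := card_le_card hsub
    rw [card_biUnion hpd, hsum3, card_powersetCard] at h1
    have h2 : Z.card.choose 2 ≤ Nat.choose 4 2 := Nat.choose_le_choose 2 (by omega)
    have h3 : Nat.choose 4 2 = 6 := by decide
    omega
  have heq : L.biUnion (fun x => (nz src dst Z x).powersetCard 2) = Z.powersetCard 2 := by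
    apply eq_of_subset_of_card_le hsub
    rw [card_biUnion hpd, hsum3, card_powersetCard, hZ5]
    decide
  have hall : ∀ p ∈ Z, ∀ q ∈ Z, p ≠ q → ∃ x, Nis src dst x ∧ x ∉ Z ∧
      (nx src dst Z x).card = 1 ∧ nz src dst Z x = {p, q} := by
    intro p hp q hq hpq
    have h1 : ({p, q} : Finset V) ∈ Z.powersetCard 2 := by
      rw [mem_powersetCard]
      refine ⟨?_, card_pair hpq⟩
      intro w hw
      rw [mem_insert, mem_singleton] at hw
      rcases hw with rfl | rfl
      · exact hp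
      · exact hq
    rw [← heq, mem_biUnion] at h1
    obtain ⟨x, hx, hx2⟩ := h1
    rw [mem_powersetCard] at hx2
    have hx2' := (mL2 x).1 (hL2L x hx)
    refine ⟨x, (h.nis x).1 ((mL x).1 hx).1.1, ((mL x).1 hx).1.2, hone x (hL2L x hx), ?_⟩
    symm
    exact eq_of_subset_of_card_le hx2.1 (by rw [hx2'.2, card_pair hpq])
  refine ⟨h.min, hZ5, ?_, ?_, hall⟩
  · intro p hp
    rw [eq_empty_iff_forall_notMem]
    intro q hq
    rw [mem_nz] at hq
    have hqp : q ≠ p := (mem_nbr.1 hq.1).1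
    obtain ⟨x, -, -, -, hx⟩ := hall p hp q hq.2 hqp.symm
    have h1 : p ∈ nz src dst Z x := by rw [hx]; simp
    have h2 : q ∈ nz src dst Z x := by rw [hx]; simp
    exact disjoint_left.1 (nbr_disj h.min hq.1) (nbr_symm (mem_nz.1 h1).1)
      (nbr_symm (mem_nz.1 h2).1)
  · intro x hx hxZ
    have hxN := (h.nis x).2 hx
    by_cases h1 : (nx src dst Z x).card ≤ 1
    · left
      have h2 := hL2L x ((mL x).2 ⟨⟨hxN, hxZ⟩, h1⟩)
      exact ⟨hone x h2, ((mL2 x).1 h2).2⟩
    · right
      have h2 := cC x ((mC x).2 ⟨⟨hxN, hxZ⟩, h1⟩)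
      exact ⟨h2.1, h2.2.1, fun y hy => (h2.2.2 y hy).2⟩

end Pool.T9h45.TD
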